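import Pool.Agent.Lib.SL94.Base

/-! Row FIN: back to the definitions of the hand-in, general laws. -/

namespace Pool.Agent.Lib.SL94

open MeasureTheory ProbabilityTheory Filter Topology SimpleGraph Pool.Agent.Lib.FP95
open Pool.Agent.Lib.MP_eba68f_pr hiding Nice
open scoped NNReal ENNReal

namespace FIN

lemma ident (p : Par) (z : V) :
    IdentDistrib (fun τ => passage τ 0 z) (fun τ => T τ 0 z)
      (Measure.infinitePi fun _ : (lattice 2).edgeSet => p.F) p.P := by
  have hm : Measurable fun τ : (lattice 2).edgeSet → ℝ≥0 => passage τ 0 z := by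
    refine Measurable.iInf fun q => ?_
    induction q.darts with
    | nil => simp
    | cons a l ih =>
      simp only [List.map_cons, List.sum_cons]
      exact ((measurable_pi_apply
        (⟨a.edge, a.edge_mem⟩ : (lattice 2).edgeSet)).coe_nnreal_real).add ih
  have h1 := Measure.map_infinitePi_infinitePi_of_inj (P := fun _ : Sym2 V => p.F)
    (f := fun e : (lattice 2).edgeSet => (e : Sym2 V)) Subtype.val_injective
  refine ⟨hm.aemeasurable, (T_meas 0 z).aemeasurable, ?_⟩
  rw [← h1, Measure.map_map hm (by fun_prop)]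
  refine Measure.map_congr (ae_of_all _ fun τ => ?_)
  show passage (fun e : (lattice 2).edgeSet => τ e) 0 z = T τ 0 z
  unfold passage T SW
  simp only [Walk.edges, List.map_map]
  rfl

/-- a level above the bottom of the support that carries little mass -/
lemma level (F : Measure ℝ≥0) [IsProbabilityMeasure F] (r b : ℝ≥0) (hF : F (Set.Iio r) = 0)
    (hrb : r < b) (c : ℝ≥0∞) (hc : F {r} < c) : ∃ a : ℝ≥0, r < a ∧ a ≤ b ∧ F (Set.Iic a) < c := by
  have h2 : F (Set.Iic r) ≤ F {r} := by
    rw [← Set.Iio_union_right]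
    refine (measure_union_le _ _).trans ?_
    rw [hF, zero_add]
  have h3 := tendsto_measure_biInter_gt (μ := F) (s := fun a : ℝ≥0 => Set.Iic a) (a := r)
    (fun a _ => measurableSet_Iic.nullMeasurableSet) (fun i j _ h => Set.Iic_subset_Iic.2 h)
    ⟨b, hrb, measure_ne_top _ _⟩
  have h4 : (⋂ a > r, Set.Iic a) = Set.Iic r := by
    ext t
    simp only [Set.mem_iInter, Set.mem_Iic]
    exact ⟨fun h => le_of_forall_gt_imp_ge_of_dense h, fun h a ha => h.trans ha.le⟩
  rw [h4] at h3
  have h6 : ∀ᶠ a in 𝓝[>] r, r < a := self_mem_nhdsWithin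
  have h7 : ∀ᶠ a in 𝓝[>] r, a ≤ b := mem_nhdsWithin_of_mem_nhds (Iic_mem_nhds hrb)
  have : (𝓝[>] r).NeBot := nhdsGT_neBot_of_exists_gt ⟨b, hrb⟩
  obtain ⟨a, ha, hb, hc⟩ := ((h3.eventually (gt_mem_nhds (h2.trans_lt hc))).and (h6.and h7)).exists
  exact ⟨a, hb, hc, ha⟩

end FIN

open FIN in
theorem bFIN (hP : St_PEI) (hR : St_RATE) : St_FIN := by
  obtain ⟨p₀, hp, H⟩ := hP
  refine ⟨ENNReal.ofReal p₀, ENNReal.ofReal_pos.2 hp, fun F _ r hz hFr hs h0 => ?_⟩
  obtain ⟨hi, rh, -, hh⟩ := level F r (r + 1) hFr (lt_add_one r) _ h0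
  have rh' : (r : ℝ) < hi := rh
  have l1 : r < (r + hi) / 2 := by rw [← NNReal.coe_lt_coe]; push_cast; linarith
  have l2 : (r + hi) / 2 < hi := by rw [← NNReal.coe_lt_coe]; push_cast; linarith
  let p : Sys :=
    { F := F
      prob := inferInstance
      r := 1
      b := 1
      r_pos := one_pos
      r_le := le_rfl
      r0 := r
      lo := (r + hi) / 2
      hi := hi
      lo_lt := l2
      mid := by push_cast; linarith
      zero := hz
      supp := hFr
      q_pos := ENNReal.toReal_pos (hs _ l1).ne' (measure_ne_top _ _) }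
  obtain ⟨c, c0, N, h⟩ := hR p
    (H p.toPar hi (ENNReal.toReal_le_of_le_ofReal hp.le hh.le))
  refine ⟨c, c0, N, fun v hv => ?_⟩
  have e := (ident p.toPar v).evariance_eq
  refine le_trans ?_ e.ge
  rcases eq_or_ne (evariance (fun τ => T τ 0 v) p.P) ⊤ with ht | ht
  · exact le_top.trans ht.ge
  · have hm : MemLp (fun τ => T τ 0 v) 2 p.P :=
      (evariance_lt_top_iff_memLp (T_meas 0 v).aestronglyMeasurable).1 ht.lt_top
    rw [← ofReal_variance hm]
    exact ENNReal.ofReal_le_ofReal (h v hv hm)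

end Pool.Agent.Lib.SL94
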