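import Pool.Agent.Lib.SL94.Base

/-! Row SEG: the piece of a nearly optimal path after its last visit to the ball of radius `n`. -/

namespace Pool.Agent.Lib.SL94

open Finset SimpleGraph Pool.Agent.Lib.FP95
open Pool.Agent.Lib.MP_eba68f_pr hiding Nice

namespace SEG

lemma SW_eq (τ : Cfg) {u v : V} (q : G.Walk u v) :
    SW τ q.edges = ∑ j ∈ range q.length, (τ s(q.getVert j, q.getVert (j + 1)) : ℝ) := by
  induction q with
  | nil => simp
  | cons h q ih =>
    rw [Walk.edges_cons, SW_cons, Walk.length_cons, sum_range_succ', ih, add_comm]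
    simp only [Walk.getVert_cons_succ, Walk.getVert_zero]

lemma T_le_sum (τ : Cfg) {u v : V} (q : G.Walk u v) {a b : ℕ} (hab : a ≤ b) (hb : b ≤ q.length) :
    T τ (q.getVert a) (q.getVert b) ≤
      ∑ j ∈ Ico a b, (τ s(q.getVert j, q.getVert (j + 1)) : ℝ) := by
  induction b, hab using Nat.le_induction with
  | base => simp [T_self]
  | succ b hab ih =>
    rw [sum_Ico_succ_top hab]
    have h1 := ih (by omega)
    have h2 := T_adj τ (q.adj_getVert_succ (i := b) (by omega))
    linarith [T_tri τ (q.getVert a) (q.getVert b) (q.getVert (b + 1))]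

lemma n1_le {u v : V} (q : G.Walk u v) (a j : ℕ) (h : a + j ≤ q.length) :
    n1 (q.getVert (a + j)) ≤ n1 (q.getVert a) + j := by
  induction j with
  | zero => simp
  | succ j ih =>
    have h1 := ih (by omega)
    have h2 := n1_adj (q.adj_getVert_succ (i := a + j) (by omega))
    have h3 := n1_add_le (q.getVert (a + j)) (q.getVert (a + j + 1) - q.getVert (a + j))
    rw [add_sub_cancel, h2] at h3
    rw [← add_assoc]
    push_cast
    linarith

end SEG

theorem bSEG : St_SEG := by
  intro τ x n s hn hx hs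
  classical
  obtain ⟨q, hp, hq⟩ := exists_lt (τ := τ) (u := 0) (v := x) (lt_add_of_pos_right _ hs)
  have hn' : (1 : ℝ) ≤ n := by exact_mod_cast hn
  have h0 : n1 (q.getVert 0) ≤ (n : ℝ) := by
    rw [Walk.getVert_zero]
    simp [n1]
  set t := Nat.findGreatest (fun i => n1 (q.getVert i) ≤ (n : ℝ)) q.length with ht
  have t1 : t ≤ q.length := Nat.findGreatest_le _
  have t2 : n1 (q.getVert t) ≤ (n : ℝ) :=
    Nat.findGreatest_spec (P := fun i => n1 (q.getVert i) ≤ (n : ℝ)) (Nat.zero_le _) h0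
  have t3 : ∀ i, t < i → i ≤ q.length → (n : ℝ) < n1 (q.getVert i) := fun i h1 h2 =>
    not_le.1 (Nat.findGreatest_is_greatest (P := fun i => n1 (q.getVert i) ≤ (n : ℝ)) h1 h2)
  have t4 : t + n ≤ q.length := by
    obtain ⟨j, hj⟩ := Nat.exists_eq_add_of_le t1
    have h1 := SEG.n1_le q t j hj.ge
    rw [← hj, Walk.getVert_length] at h1
    have h2 : (n : ℝ) ≤ j := by linarith
    have h3 : n ≤ j := by exact_mod_cast h2
    omega
  refine ⟨fun j => q.getVert (t + 1 + j), ⟨fun j hj => ?_, fun i j hi hj h => ?_, fun j hj =>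
    ⟨t3 _ (by omega) (by omega), ?_⟩⟩, fun i i' hi hi' => ?_⟩
  · exact q.adj_getVert_succ (i := t + 1 + j) (by omega)
  · have := hp.getVert_injOn (show t + 1 + i ≤ q.length by omega)
      (show t + 1 + j ≤ q.length by omega) h
    omega
  · have h1 := SEG.n1_le q t (1 + j) (by omega)
    rw [← add_assoc] at h1
    have h2 : ((1 + j : ℕ) : ℝ) ≤ n := by exact_mod_cast (by omega : 1 + j ≤ n)
    linarith
  · have a1 := SEG.T_le_sum τ q (Nat.zero_le (t + 1 + i)) (by omega)
    have a2 := SEG.T_le_sum τ q (a := t + 1 + i') (b := q.length) (by omega) le_rfl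
    rw [Walk.getVert_zero] at a1
    rw [Walk.getVert_length] at a2
    have a3 : ∑ j ∈ Ico i i', (τ s(q.getVert (t + 1 + j), q.getVert (t + 1 + (j + 1))) : ℝ) =
        ∑ j ∈ Ico (t + 1 + i) (t + 1 + i'), (τ s(q.getVert j, q.getVert (j + 1)) : ℝ) := by
      rw [add_comm (t + 1) i, add_comm (t + 1) i', ← sum_Ico_add]
      rfl
    have a4 := sum_Ico_consecutive (fun j => (τ s(q.getVert j, q.getVert (j + 1)) : ℝ))
      (Nat.zero_le (t + 1 + i)) (show t + 1 + i ≤ t + 1 + i' by omega)
    have a5 := sum_Ico_consecutive (fun j => (τ s(q.getVert j, q.getVert (j + 1)) : ℝ))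
      (Nat.zero_le (t + 1 + i')) (show t + 1 + i' ≤ q.length by omega)
    rw [SEG.SW_eq, range_eq_Ico] at hq
    rw [a3]
    linarith

end Pool.Agent.Lib.SL94
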