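import Pool.Agent.Lib.SL94.Base

/-! Row MART: orthogonal increments along the growth from a site. -/

namespace Pool.Agent.Lib.SL94

open MeasureTheory ProbabilityTheory Filter Topology Function Finset SimpleGraph Pool.Agent.Lib.FP95
open Pool.Agent.Lib.MP_eba68f_pr hiding Nice
open scoped NNReal ENNReal

namespace MART

/-- walks through an edge are slow -/
lemma thru (τ : Cfg) (o y z : V) {u v : V} (q : G.Walk u v) : s(y, z) ∈ q.edges →
    min (T τ o y) (T τ o z) + τ s(y, z) ≤ T τ o u + SW τ q.edges := by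
  induction q with
  | nil => simp
  | @cons u w v h q ih =>
    intro he
    rw [Walk.edges_cons] at he ⊢
    rw [SW_cons]
    by_cases h1 : s(y, z) = s(u, w)
    · have h2 : min (T τ o y) (T τ o z) ≤ T τ o u := by
        rcases Sym2.eq_iff.1 h1 with ⟨rfl, -⟩ | ⟨-, rfl⟩
        · exact min_le_left _ _
        · exact min_le_right _ _
      rw [← h1]
      linarith [SW_nonneg τ q.edges]
    · have := ih ((List.mem_cons.1 he).resolve_left h1)
      linarith [T_tri τ o u w, T_adj τ h]

section det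

variable {τ τ' : Cfg} {o y z : V}

lemma K1 (h : ∀ e, e ≠ s(y, z) → τ e = τ' e) {v : V}
    (hv : T τ o v < min (T τ o y) (T τ o z) + τ s(y, z)) : T τ' o v ≤ T τ o v := by
  by_contra hc
  obtain ⟨q, -, hq⟩ := exists_lt (lt_min (not_le.1 hc) hv)
  rw [lt_min_iff] at hq
  have h1 : s(y, z) ∉ q.edges := fun he => by
    have := thru τ o y z q he
    rw [T_self] at this
    linarith [hq.2]
  have h2 := T_le_SW τ' q
  rw [← SW_congr fun e he => h e fun h' => h1 (h' ▸ he)] at h2
  linarith [hq.1]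

lemma Kmin (h : ∀ e, e ≠ s(y, z) → τ e = τ' e) (h0 : 0 < τ s(y, z)) :
    min (T τ' o y) (T τ' o z) ≤ min (T τ o y) (T τ o z) := by
  have h0' : (0 : ℝ) < τ s(y, z) := h0
  rcases le_total (T τ o y) (T τ o z) with h1 | h1
  · refine (min_le_left _ _).trans ((K1 h ?_).trans_eq (min_eq_left h1).symm)
    rw [min_eq_left h1]; linarith
  · refine (min_le_right _ _).trans ((K1 h ?_).trans_eq (min_eq_right h1).symm)
    rw [min_eq_right h1]; linarith

lemma K2 (h : ∀ e, e ≠ s(y, z) → τ e = τ' e) (h0 : 0 < τ s(y, z)) (h0' : 0 < τ' s(y, z)) {v : V}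
    (hv : T τ o v ≤ min (T τ o y) (T τ o z)) : T τ' o v = T τ o v := by
  have b0 : (0 : ℝ) < τ s(y, z) := h0
  have b1 : (0 : ℝ) < τ' s(y, z) := h0'
  have a1 : T τ' o v ≤ T τ o v := K1 h (by linarith)
  have a2 := Kmin (o := o) (fun e he => (h e he).symm) h0'
  exact le_antisymm a1 (K1 (fun e he => (h e he).symm) (by linarith))

lemma K3 (h : ∀ e, e ≠ s(y, z) → τ e = τ' e) (h0 : 0 < τ s(y, z)) (h0' : 0 < τ' s(y, z))
    (hyz : T τ o y < T τ o z) (v : V) :
    (T τ o v ≤ T τ o y → T τ' o v = T τ o v) ∧ (T τ o y < T τ o v → T τ o y < T τ' o v) := by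
  have hm := min_eq_left hyz.le
  refine ⟨fun hv => K2 h h0 h0' (hm.symm ▸ hv), fun hv => ?_⟩
  by_contra hc
  have a2 := Kmin (o := o) (fun e he => (h e he).symm) h0'
  have := K2 (fun e he => (h e he).symm) h0' h0 (v := v) (o := o) (by linarith)
  linarith

end det

/-- the tail is reached first, and early -/
def A (o : V) (a : V → ℝ) (y z : V) : Set Cfg := {τ | T τ o y < T τ o z ∧ T τ o y < a y}

lemma A_meas (o : V) (a : V → ℝ) (y z : V) : MeasurableSet (A o a y z) :=
  (measurableSet_lt (T_meas o y) (T_meas o z)).inter (meas_lt o y _)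

/-- the set does not depend on the positive weight of `e` -/
def Inv (e : Sym2 V) (B : Set Cfg) : Prop :=
  ∀ τ τ' : Cfg, (∀ e', e' ≠ e → τ e' = τ' e') → 0 < τ e → 0 < τ' e → τ ∈ B → τ' ∈ B

lemma B_inv {τ τ' : Cfg} {o y z y' z' : V} {a : V → ℝ} (h : ∀ e, e ≠ s(y, z) → τ e = τ' e)
    (h0 : 0 < τ s(y, z)) (h0' : 0 < τ' s(y, z)) (h1 : τ ∈ A o a y z) (h2 : τ ∈ A o a y' z')
    (h3 : T τ o y' ≤ T τ o y) :
    τ' ∈ A o a y z ∧ τ' ∈ A o a y' z' ∧ T τ' o y = T τ o y ∧ T τ' o y' = T τ o y' := by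
  have k := K3 h h0 h0' h1.1
  have e1 := (k y).1 le_rfl
  have e2 := (k y').1 h3
  refine ⟨⟨?_, ?_⟩, ⟨?_, ?_⟩, e1, e2⟩
  · rw [e1]; exact (k z).2 h1.1
  · rw [e1]; exact h1.2
  · rw [e2]
    rcases le_or_gt (T τ o z') (T τ o y) with h4 | h4
    · rw [(k z').1 h4]; exact h2.1
    · exact h3.trans_lt ((k z').2 h4)
  · rw [e2]; exact h2.2

lemma A_inv (o : V) (a : V → ℝ) (y z : V) : Inv s(y, z) (A o a y z) :=
  fun _ _ h h0 h0' h1 => (B_inv h h0 h0' h1 h1 le_rfl).1

lemma Inv.ind {e : Sym2 V} {B : Set Cfg} (hB : Inv e B) {τ : Cfg} (h0 : 0 < τ e) :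
    B.indicator (fun _ => (1 : ℝ)) (update τ e 1) = B.indicator (fun _ => (1 : ℝ)) τ := by
  have h1 : 0 < update τ e 1 e := by rw [update_self]; exact one_pos
  have h2 : ∀ e', e' ≠ e → τ e' = update τ e 1 e' := fun e' he => (update_of_ne he _ _).symm
  by_cases h : τ ∈ B
  · rw [Set.indicator_of_mem h, Set.indicator_of_mem (hB _ _ h2 h0 h1 h)]
  · rw [Set.indicator_of_notMem h,
      Set.indicator_of_notMem fun h' => h (hB _ _ (fun e' he => (h2 e' he).symm) h1 h0 h')]

lemma int_indep (p : Par) (e : Sym2 V) {f : Cfg → ℝ} (hf : Measurable f)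
    (hd : ∀ τ t, f (update τ e t) = f τ) {g : ℝ≥0 → ℝ} (hg : Measurable g) :
    ∫ τ, f τ * g (τ e) ∂p.P = (∫ τ, f τ ∂p.P) * ∫ t, g t ∂p.F := by
  have hm : Measurable fun τ : Cfg => f τ * g (τ e) := hf.mul (hg.comp (measurable_pi_apply e))
  have h1 := integral_map (μ := p.P.prod p.F) (bRES p e).measurable.aemeasurable
    hm.aestronglyMeasurable
  rw [(bRES p e).map_eq] at h1
  rw [h1]
  simp only [hd, update_self]
  exact integral_prod_mul f g

/-- the centred indicator of a light weight -/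
noncomputable def eta (p : Sys) (t : ℝ≥0) : ℝ := p.q - (Set.Iic p.lo).indicator (fun _ => 1) t

variable (p : Sys)

lemma eta_meas : Measurable (eta p) :=
  measurable_const.sub (measurable_const.indicator measurableSet_Iic)

lemma eta_lo {t : ℝ≥0} (h : t ≤ p.lo) : eta p t = p.q - 1 := by simp [eta, h]
lemma eta_hi {t : ℝ≥0} (h : p.lo < t) : eta p t = p.q := by simp [eta, h]

lemma eta_abs (t : ℝ≥0) : |eta p t| ≤ 1 := by
  have := p.q_pos'
  have := p.q_le
  rcases le_or_gt t p.lo with h | h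
  · rw [eta_lo p h, abs_le]; constructor <;> linarith
  · rw [eta_hi p h, abs_le]; constructor <;> linarith

lemma eta_nice (e : Sym2 V) : Nice fun τ : Cfg => eta p (τ e) :=
  ⟨(eta_meas p).comp (measurable_pi_apply e), 1, fun _ => eta_abs p _⟩

lemma eta_int : ∫ t, eta p t ∂p.F = 0 := by
  unfold eta
  rw [integral_sub (integrable_const _) ((integrable_const _).indicator measurableSet_Iic),
    integral_indicator_const _ measurableSet_Iic]
  simp [Sys.q]

lemma orth (e : Sym2 V) {f : Cfg → ℝ} (hf : Measurable f)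
    (hd : ∀ τ : Cfg, 0 < τ e → f (update τ e 1) = f τ) : ∫ τ, f τ * eta p (τ e) ∂p.P = 0 := by
  have h1 := int_indep p.toPar e (f := fun τ => f (update τ e 1))
    (hf.comp (measurable_update_left)) (fun τ t => by rw [update_idem]) (eta_meas p)
  rw [eta_int, mul_zero] at h1
  rw [← h1]
  exact integral_congr_ae ((p.ae_pos e).mono fun τ h => by simp only [hd τ h])

/-- the increments -/
noncomputable def xi (o : V) (a : V → ℝ) (y z : V) (τ : Cfg) : ℝ :=
  (A o a y z).indicator (fun _ => 1) τ * eta p (τ s(y, z))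

variable (o : V) (a : V → ℝ)

lemma xi_nice (y z : V) : Nice (xi p o a y z) := (Nice.ind (A_meas o a y z)).mul (eta_nice p _)

lemma xi_int (y z : V) : ∫ τ, xi p o a y z τ ∂p.P = 0 :=
  orth p _ (Nice.ind (A_meas o a y z)).1 fun _ h => (A_inv o a y z).ind h

lemma xi_sq (y z : V) : ∫ τ, xi p o a y z τ * xi p o a y z τ ∂p.P ≤ p.pr {τ | T τ o y < a y} := by
  rw [← p.int_ind (meas_lt o y _)]
  refine integral_mono (((xi_nice p o a y z).mul (xi_nice p o a y z)).int _)
    ((Nice.ind (meas_lt o y _)).int _) fun τ => ?_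
  unfold xi
  by_cases h : τ ∈ A o a y z
  · have h' : τ ∈ {τ | T τ o y < a y} := h.2
    simp only [Set.indicator_of_mem h, Set.indicator_of_mem h', one_mul]
    have := abs_le.1 (eta_abs p (τ s(y, z)))
    nlinarith
  · simp only [Set.indicator_of_notMem h, zero_mul]
    exact Set.indicator_nonneg (fun _ _ => zero_le_one) _

lemma half {e e' : Sym2 V} (hne : e' ≠ e) {B : Set Cfg} (hB : MeasurableSet B) (hI : Inv e B) :
    ∫ τ, B.indicator (fun _ => (1 : ℝ)) τ * eta p (τ e') * eta p (τ e) ∂p.P = 0 :=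
  orth p e ((Nice.ind hB).mul (eta_nice p e')).1 fun τ h => by
    rw [hI.ind h, update_of_ne hne]

lemma xi_orth {y z y' z' : V} (hne : ¬(y = y' ∧ z = z')) :
    ∫ τ, xi p o a y z τ * xi p o a y' z' τ ∂p.P = 0 := by
  by_cases he : s(y, z) = s(y', z')
  · obtain ⟨rfl, rfl⟩ := (Sym2.eq_iff.1 he).resolve_left hne
    refine integral_eq_zero_of_ae (ae_of_all _ fun τ => ?_)
    unfold xi
    by_cases h : τ ∈ A o a y z
    · have : τ ∉ A o a z y := fun h' => lt_asymm h.1 h'.1
      simp [this]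
    · simp [h]
  · let B1 : Set Cfg := A o a y z ∩ A o a y' z' ∩ {τ | T τ o y' ≤ T τ o y}
    let B2 : Set Cfg := A o a y z ∩ A o a y' z' ∩ {τ | T τ o y < T τ o y'}
    have m1 : MeasurableSet B1 := ((A_meas o a y z).inter (A_meas o a y' z')).inter
      (measurableSet_le (T_meas o y') (T_meas o y))
    have m2 : MeasurableSet B2 := ((A_meas o a y z).inter (A_meas o a y' z')).inter
      (measurableSet_lt (T_meas o y) (T_meas o y'))
    have i1 : Inv s(y, z) B1 := fun τ τ' h h0 h0' hτ => by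
      obtain ⟨k1, k2, k3, k4⟩ := B_inv h h0 h0' hτ.1.1 hτ.1.2 hτ.2
      exact ⟨⟨k1, k2⟩, show T τ' o y' ≤ T τ' o y by rw [k3, k4]; exact hτ.2⟩
    have i2 : Inv s(y', z') B2 := fun τ τ' h h0 h0' hτ => by
      obtain ⟨k1, k2, k3, k4⟩ := B_inv h h0 h0' hτ.1.2 hτ.1.1 (le_of_lt hτ.2)
      exact ⟨⟨k2, k1⟩, show T τ' o y < T τ' o y' by rw [k3, k4]; exact hτ.2⟩
    have e1 := half p (Ne.symm he) m1 i1
    have e2 := half p he m2 i2
    have e3 := integral_add ((((Nice.ind m1).mul (eta_nice p s(y', z'))).mul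
      (eta_nice p s(y, z))).int p.P) ((((Nice.ind m2).mul (eta_nice p s(y, z))).mul
      (eta_nice p s(y', z'))).int p.P)
    rw [e1, e2, add_zero] at e3
    rw [← e3]
    refine integral_congr_ae (ae_of_all _ fun τ => ?_)
    simp only [xi]
    by_cases h1 : τ ∈ A o a y z
    · by_cases h2 : τ ∈ A o a y' z'
      · rcases le_or_gt (T τ o y') (T τ o y) with h3 | h3
        · have k1 : τ ∈ B1 := ⟨⟨h1, h2⟩, h3⟩
          have k2 : τ ∉ B2 := fun h => absurd h.2 (not_lt.2 h3)
          simp only [Set.indicator_of_mem h1, Set.indicator_of_mem h2, Set.indicator_of_mem k1,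
            Set.indicator_of_notMem k2]
          ring
        · have k1 : τ ∉ B1 := fun h => absurd h.2 (not_le.2 h3)
          have k2 : τ ∈ B2 := ⟨⟨h1, h2⟩, h3⟩
          simp only [Set.indicator_of_mem h1, Set.indicator_of_mem h2, Set.indicator_of_mem k2,
            Set.indicator_of_notMem k1]
          ring
      · have k1 : τ ∉ B1 := fun h => h2 h.1.2
        have k2 : τ ∉ B2 := fun h => h2 h.1.2
        simp only [Set.indicator_of_notMem h2, Set.indicator_of_notMem k1,
          Set.indicator_of_notMem k2]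
        ring
    · have k1 : τ ∉ B1 := fun h => h1 h.1.1
      have k2 : τ ∉ B2 := fun h => h1 h.1.1
      simp only [Set.indicator_of_notMem h1, Set.indicator_of_notMem k1,
        Set.indicator_of_notMem k2]
      ring

lemma SW_upd (τ : Cfg) (e : Sym2 V) (c : ℝ≥0) {l : List (Sym2 V)} (hl : l.Nodup) :
    SW (update τ e c) l ≤ SW τ l + c := by
  induction l with
  | nil => simp
  | cons b l ih =>
    rw [List.nodup_cons] at hl
    simp only [SW_cons]
    by_cases hb : b = e
    · subst hb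
      rw [update_self, SW_congr (τ := update τ b c) (τ' := τ) fun e' he =>
        update_of_ne (fun h : e' = b => hl.1 (h ▸ he)) _ _]
      linarith [(τ b).coe_nonneg]
    · rw [update_of_ne hb]
      linarith [ih hl.2]

lemma T_upd (τ : Cfg) (e : Sym2 V) (c : ℝ≥0) (u v : V) : T (update τ e c) u v ≤ T τ u v + c := by
  by_contra hc
  obtain ⟨q, hq, h⟩ := exists_lt (τ := τ) (u := u) (v := v) (c := T (update τ e c) u v - c)
    (by linarith)
  linarith [T_le_SW (update τ e c) q, SW_upd τ e c hq.isTrail.edges_nodup]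

lemma int_mul {f g : Cfg → ℝ} (hf : Integrable f p.P) (hg : Nice g) :
    Integrable (fun τ => f τ * g τ) p.P := by
  obtain ⟨hm, C, hC⟩ := hg
  exact hf.mul_bdd hm.aestronglyMeasurable (ae_of_all _ hC)

lemma cov (x : V) {y z : V} (hadj : G.Adj y z) (hT : Integrable (fun τ => T τ o x) p.P) :
    p.q * p.d / 2 * p.pr (p.Ev o x a y z) ≤ ∫ τ, T τ o x * xi p o a y z τ ∂p.P := by
  have mlo : Measurable fun τ : Cfg => T (update τ s(y, z) p.lo) o x :=
    (T_meas o x).comp measurable_update_left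
  have ilo : Integrable (fun τ : Cfg => T (update τ s(y, z) p.lo) o x) p.P :=
    (hT.add (integrable_const (p.lo : ℝ))).mono' mlo.aestronglyMeasurable
      (ae_of_all _ fun τ => by
        rw [Real.norm_of_nonneg (T_nonneg _ _ _)]
        exact T_upd τ _ _ o x)
  have h0 := orth p s(y, z)
    (f := fun τ => T (update τ s(y, z) p.lo) o x * (A o a y z).indicator (fun _ => 1) τ)
    (mlo.mul (Nice.ind (A_meas o a y z)).1) fun τ h => by
      rw [(A_inv o a y z).ind h, update_idem]
  have i1 := int_mul p (int_mul p ilo (Nice.ind (A_meas o a y z))) (eta_nice p s(y, z))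
  have i2 := ((Nice.ind (p.Ev_meas o x a y z)).int p.P).const_mul (p.q * p.d / 2)
  have e := integral_add i1 i2
  rw [h0, zero_add, integral_const_mul, p.int_ind (p.Ev_meas o x a y z)] at e
  rw [← e]
  refine integral_mono (i1.add i2) (int_mul p hT (xi_nice p o a y z)) fun τ => ?_
  have hq := p.q_pos'
  have hq1 := p.q_le
  have hd := p.d_pos
  have hlo : (p.lo : ℝ) < p.hi := p.lo_lt
  have hd' : p.d = p.hi - p.lo := rfl
  simp only [xi]
  by_cases hE : τ ∈ p.Ev o x a y z
  · obtain ⟨k1, k2, k3⟩ := id hE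
    have k2' : (p.hi : ℝ) < τ s(y, z) := k2
    have hA : τ ∈ A o a y z := ⟨by linarith [T_tri τ o z x, p.lo.coe_nonneg], k3⟩
    have hl : p.lo < τ s(y, z) := p.lo_lt.trans k2
    have hle : update τ s(y, z) p.lo ≤ τ := update_le_self_iff.2 hl.le
    have k4 := T_adj (update τ s(y, z) p.lo) hadj
    rw [update_self] at k4
    have k5 : T (update τ s(y, z) p.lo) o x ≤ T τ o x - p.d / 2 := by
      linarith [T_tri (update τ s(y, z) p.lo) o y x, T_tri (update τ s(y, z) p.lo) y z x,
        T_mono hle o y, T_mono hle z x]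
    simp only [Set.indicator_of_mem hE, Set.indicator_of_mem hA, eta_hi p hl]
    nlinarith
  · rw [Set.indicator_of_notMem hE]
    by_cases hA : τ ∈ A o a y z
    · rw [Set.indicator_of_mem hA]
      rcases le_or_gt (τ s(y, z)) p.lo with hl | hl
      · have := T_mono (le_update_self_iff.2 hl : τ ≤ update τ s(y, z) p.lo) o x
        rw [eta_lo p hl]
        nlinarith
      · have := T_mono (update_le_self_iff.2 hl.le : update τ s(y, z) p.lo ≤ τ) o x
        rw [eta_hi p hl]
        nlinarith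
    · rw [Set.indicator_of_notMem hA]
      simp

end MART

open MART in
theorem bMART : St_MART := by
  classical
  intro p o x a π σ lam ι I y z w hT hV hl hπ hadj hinj hw
  have iT : Integrable (fun τ => T τ o x) p.P := hT.integrable one_le_two
  set h := ∫ τ, T τ o x ∂p.P with hh
  have nx : ∀ i ∈ I, Nice fun τ => w i * xi p o a (y i) (z i) τ :=
    fun i _ => (FP95.Nice.const _).mul (xi_nice p o a _ _)
  have nX := FP95.Nice.sum I nx
  have iC : Integrable (fun τ => T τ o x - h) p.P := iT.sub (integrable_const _)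
  have iS : Integrable (fun τ => (T τ o x - h) ^ 2) p.P :=
    (hT.sub (memLp_const h)).integrable_sq
  have e1 : ∫ τ, (T τ o x - h) ^ 2 ∂p.P ≤ σ ^ 2 :=
    (variance_eq_integral (T_meas o x).aemeasurable).ge.trans hV
  have e2 : ∫ τ, (∑ i ∈ I, w i * xi p o a (y i) (z i) τ) *
      (∑ i ∈ I, w i * xi p o a (y i) (z i) τ) ∂p.P ≤ π * ∑ i ∈ I, w i ^ 2 := by
    simp only [sum_mul_sum]
    rw [integral_finsetSum _ fun i hi => (FP95.Nice.sum I fun j hj => (nx i hi).mul (nx j hj)).int _,
      mul_sum]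
    refine sum_le_sum fun i hi => ?_
    rw [integral_finsetSum _ fun j hj => ((nx i hi).mul (nx j hj)).int _,
      sum_eq_single_of_mem i hi fun j hj hne => ?_]
    · simp only [mul_mul_mul_comm (w i) _ (w i)]
      rw [integral_const_mul, sq, mul_comm π]
      exact mul_le_mul_of_nonneg_left ((xi_sq p o a _ _).trans (hπ _)) (mul_self_nonneg _)
    · simp only [mul_mul_mul_comm (w i) _ (w j)]
      rw [integral_const_mul, xi_orth p o a fun k => hne (hinj i hi j hj k.1 k.2).symm, mul_zero]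
  have e3 : p.q * p.d / 2 * ∑ i ∈ I, w i * p.pr (p.Ev o x a (y i) (z i)) ≤
      ∫ τ, (T τ o x - h) * ∑ i ∈ I, w i * xi p o a (y i) (z i) τ ∂p.P := by
    simp only [mul_sum]
    rw [integral_finsetSum _ fun i hi => int_mul p iC (nx i hi)]
    refine sum_le_sum fun i hi => ?_
    have k : ∀ τ, (T τ o x - h) * (w i * xi p o a (y i) (z i) τ) =
        w i * (T τ o x * xi p o a (y i) (z i) τ - h * xi p o a (y i) (z i) τ) := fun τ => by ring
    simp only [k]
    rw [integral_const_mul, integral_sub (int_mul p iT (xi_nice p o a _ _))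
      (((xi_nice p o a _ _).int _).const_mul _), integral_const_mul, xi_int, mul_zero, sub_zero,
      mul_left_comm]
    exact mul_le_mul_of_nonneg_left (cov p o a x (hadj i hi) iT) (hw i hi)
  have j1 := iS.const_mul (lam / 2)
  have j2 := ((nX.mul nX).int p.P).const_mul (1 / (2 * lam))
  have e4 := integral_mono (int_mul p iC nX) (j1.add j2) fun τ => by
    show (T τ o x - h) * _ ≤ lam / 2 * (T τ o x - h) ^ 2 + 1 / (2 * lam) * (_ * _)
    generalize T τ o x - h = u
    generalize ∑ i ∈ I, w i * xi p o a (y i) (z i) τ = v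
    have : lam / 2 * u ^ 2 + 1 / (2 * lam) * (v * v) - u * v = (lam * u - v) ^ 2 / (2 * lam) := by
      field_simp; ring
    have h2 : 0 ≤ (lam * u - v) ^ 2 / (2 * lam) := by positivity
    linarith
  simp only [Pi.add_apply] at e4
  rw [integral_add j1 j2, integral_const_mul, integral_const_mul] at e4
  have e5 := mul_le_mul_of_nonneg_left e1 (by positivity : 0 ≤ lam / 2)
  have e6 := mul_le_mul_of_nonneg_left e2 (by positivity : 0 ≤ 1 / (2 * lam))
  have e7 : 1 / (2 * lam) * (π * ∑ i ∈ I, w i ^ 2) = π / (2 * lam) * ∑ i ∈ I, w i ^ 2 := by ring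
  linarith

end Pool.Agent.Lib.SL94
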