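import Pool.Agent.Lib.SL94.Base

/-! The Peierls bound for paths with many light edges. -/

namespace Pool.Agent.Lib.SL94

open MeasureTheory ProbabilityTheory Finset Pool.Agent.Lib.FP95
open Pool.Agent.Lib.MP_eba68f_pr hiding Nice
open scoped NNReal ENNReal

namespace PEI

open Classical in
/-- all sets of edges chosen along a walk with `l` steps from `v` -/
noncomputable def fam : ℕ → V → Finset (Finset (Sym2 V))
  | 0, _ => {∅}
  | l + 1, v => (nb v).biUnion fun w => fam l w ∪ (fam l w).image (insert s(v, w))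

theorem card_fam (l : ℕ) : ∀ v : V, (fam l v).card ≤ 8 ^ l := by
  classical
  induction l with
  | zero => intro v; simp [fam]
  | succ l ih =>
    intro v
    rw [fam]
    refine (card_biUnion_le_card_mul _ _ (2 * 8 ^ l) fun w _ => ?_).trans ?_
    · refine (card_union_le _ _).trans ?_
      have h1 := ih w
      have h2 := (card_image_le (s := fam l w) (f := insert s(v, w))).trans h1
      omega
    · have h := Nat.mul_le_mul_right (2 * 8 ^ l) (card_nb v)
      rw [pow_succ]
      omega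

open Classical in
theorem mem_fam (l : ℕ) : ∀ (u : ℕ → V) (J : Finset ℕ), (∀ j < l, G.Adj (u j) (u (j + 1))) →
    (∀ j ∈ J, j < l) → J.image (fun j => s(u j, u (j + 1))) ∈ fam l (u 0) := by
  induction l with
  | zero =>
    intro u J _ hJ
    have : J = ∅ := eq_empty_of_forall_notMem fun j hj => absurd (hJ j hj) (Nat.not_lt_zero j)
    simp [fam, this]
  | succ l ih =>
    intro u J hu hJ
    have h1 := ih (fun j => u (j + 1)) ((range l).filter fun j => j + 1 ∈ J)
      (fun j hj => hu (j + 1) (by omega)) fun j hj => mem_range.1 (mem_filter.1 hj).1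
    rw [fam]
    refine mem_biUnion.2 ⟨u 1, mem_nb.2 (hu 0 (by omega)), ?_⟩
    have hs : ∀ e, e ∈ ((range l).filter fun j => j + 1 ∈ J).image
        (fun j => s(u (j + 1), u (j + 1 + 1))) ↔ ∃ j, j + 1 ∈ J ∧ s(u (j + 1), u (j + 1 + 1)) = e := by
      intro e
      rw [mem_image]
      constructor
      · rintro ⟨j, hj, rfl⟩
        exact ⟨j, (mem_filter.1 hj).2, rfl⟩
      · rintro ⟨j, hj, rfl⟩
        exact ⟨j, mem_filter.2 ⟨mem_range.2 (by have := hJ _ hj; omega), hj⟩, rfl⟩
    by_cases h0 : 0 ∈ J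
    · refine mem_union_right _ (mem_image.2 ⟨_, h1, ?_⟩)
      ext e
      rw [mem_insert, hs, mem_image]
      constructor
      · rintro (rfl | ⟨j, hj, rfl⟩)
        · exact ⟨0, h0, rfl⟩
        · exact ⟨j + 1, hj, rfl⟩
      · rintro ⟨j, hj, rfl⟩
        cases j with
        | zero => exact Or.inl rfl
        | succ j => exact Or.inr ⟨j, hj, rfl⟩
    · refine mem_union_left _ ?_
      convert h1 using 1
      ext e
      rw [hs, mem_image]
      constructor
      · rintro ⟨j, hj, rfl⟩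
        cases j with
        | zero => exact absurd hj h0
        | succ j => exact ⟨j, hj, rfl⟩
      · rintro ⟨j, hj, rfl⟩
        exact ⟨j + 1, hj, rfl⟩

theorem count (n : ℕ) (hn : 1 ≤ n) :
    (2 * (2 * (n : ℝ)) + 1) ^ 2 * 8 ^ n * (1 / 6400) ^ n ≤ 1 / 8 := by
  have h1 : (1 : ℝ) ≤ n := by exact_mod_cast hn
  have h2 : (n : ℝ) ≤ 2 ^ n := by exact_mod_cast (Nat.lt_two_pow_self (n := n)).le
  have h3 : (5 : ℝ) ≤ 5 ^ n := le_self_pow₀ (by norm_num) (by omega)
  have h4 : 2 * (2 * (n : ℝ)) + 1 ≤ 5 ^ n * 2 ^ n :=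
    le_trans (by linarith) (mul_le_mul h3 h2 (by positivity) (by positivity))
  have h5 : (2 * (2 * (n : ℝ)) + 1) ^ 2 ≤ (5 ^ n * 2 ^ n) ^ 2 :=
    pow_le_pow_left₀ (by positivity) h4 2
  have h6 : ((5 : ℝ) ^ n * 2 ^ n) ^ 2 * 8 ^ n * (1 / 6400) ^ n = (1 / 8) ^ n := by
    rw [← mul_pow, ← pow_mul, mul_comm n 2, pow_mul, ← mul_pow, ← mul_pow]
    norm_num
  calc _ ≤ ((5 : ℝ) ^ n * 2 ^ n) ^ 2 * 8 ^ n * (1 / 6400) ^ n := by gcongr
    _ = (1 / 8) ^ n := h6
    _ ≤ 1 / 8 := pow_le_of_le_one (by norm_num) (by norm_num) (by omega)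

end PEI

theorem bPEI : St_PEI := by
  classical
  refine ⟨(1 / 6400) ^ 32, by positivity, fun p hi hp n hn => ?_⟩
  set I := ((FP95.ball (2 * n)).biUnion (PEI.fam (n - 1))).filter fun E => n ≤ 32 * E.card with hI
  have hsub : Light hi n ⊆ ⋃ E ∈ I, {τ : Cfg | ∀ e ∈ E, τ e ≤ hi} := by
    rintro τ ⟨u, ⟨h1, h2, h3⟩, h4⟩
    set J := (range (n - 1)).filter fun j => τ s(u j, u (j + 1)) ≤ hi with hJ
    have hJ1 : ∀ j ∈ J, j < n - 1 := fun j hj => mem_range.1 (mem_filter.1 hj).1
    have hm := PEI.mem_fam (n - 1) u J (fun j hj => h1 j (by omega)) hJ1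
    have hc : (J.image fun j => s(u j, u (j + 1))).card = J.card := by
      refine card_image_of_injOn fun i hi j hj hij => ?_
      have a1 := hJ1 i hi
      have a2 := hJ1 j hj
      rcases Sym2.eq_iff.1 hij with ⟨h, -⟩ | ⟨h, h'⟩
      · exact h2 i j (by omega) (by omega) h
      · have b1 := h2 i (j + 1) (by omega) (by omega) h
        have b2 := h2 (i + 1) j (by omega) (by omega) h'
        omega
    refine Set.mem_iUnion₂.2 ⟨J.image fun j => s(u j, u (j + 1)), mem_filter.2 ⟨mem_biUnion.2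
      ⟨u 0, mem_ball (h3 0 (by omega)).2, by convert hm⟩, by rw [hc]; exact h4⟩, fun e he => ?_⟩
    obtain ⟨j, hj, rfl⟩ := mem_image.1 he
    exact (mem_filter.1 hj).2
  have hone : ∀ E ∈ I, p.pr {τ : Cfg | ∀ e ∈ E, τ e ≤ hi} ≤ (1 / 6400) ^ n := by
    intro E hE
    rw [pr_all]
    refine (pow_le_pow_left₀ measureReal_nonneg hp _).trans ?_
    rw [← pow_mul]
    exact pow_le_pow_of_le_one (by norm_num) (by norm_num) (mem_filter.1 hE).2
  have hcard : (I.card : ℝ) ≤ (2 * (2 * (n : ℝ)) + 1) ^ 2 * 8 ^ n := by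
    have h1 : I.card ≤ (FP95.ball (2 * n)).card * 8 ^ n := (card_filter_le _ _).trans
      (card_biUnion_le_card_mul _ _ _ fun v _ => (PEI.card_fam _ v).trans
        (Nat.pow_le_pow_right (by norm_num) (Nat.sub_le n 1)))
    have h2 : (I.card : ℝ) ≤ (FP95.ball (2 * n)).card * 8 ^ n := by exact_mod_cast h1
    exact h2.trans (mul_le_mul_of_nonneg_right (card_ball (by positivity)) (by positivity))
  refine (p.pr_mono hsub).trans ((p.pr_biUnion_le _ _).trans ?_)
  refine (sum_le_card_nsmul _ _ _ hone).trans ?_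
  rw [nsmul_eq_mul]
  exact (mul_le_mul_of_nonneg_right hcard (by positivity)).trans (PEI.count n hn)

end Pool.Agent.Lib.SL94
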