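import Pool.Agent.Lib.SL94.Base

/-! Row QUANT: integer quantiles of the passage times. -/

namespace Pool.Agent.Lib.SL94

open MeasureTheory ProbabilityTheory Filter Topology Function Pool.Agent.Lib.FP95
open Pool.Agent.Lib.MP_eba68f_pr hiding Nice
open scoped NNReal ENNReal

namespace QUANT

theorem lim (p : Par) (o v : V) :
    Tendsto (fun j : ℕ => p.pr {τ | T τ o v < (j : ℝ) + 1}) atTop (𝓝 1) := by
  have hm : Monotone fun j : ℕ => {τ : Cfg | T τ o v < (j : ℝ) + 1} := fun i j h τ hτ => by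
    have h1 : (i : ℝ) ≤ j := by exact_mod_cast h
    have h2 : T τ o v < (i : ℝ) + 1 := hτ
    show T τ o v < (j : ℝ) + 1
    linarith
  have hu : (⋃ j : ℕ, {τ : Cfg | T τ o v < (j : ℝ) + 1}) = Set.univ :=
    Set.eq_univ_of_forall fun τ => by
      obtain ⟨j, hj⟩ := exists_nat_gt (T τ o v)
      exact Set.mem_iUnion.2 ⟨j, show T τ o v < (j : ℝ) + 1 by linarith⟩
  have h := tendsto_measure_iUnion_atTop (μ := p.P) hm
  rw [hu, measure_univ] at h
  exact (ENNReal.tendsto_toReal ENNReal.one_ne_top).comp h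

theorem one (p : Par) (o v : V) {π : ℝ} (h0 : 0 ≤ π) (h1 : π < 1) : ∃ a : ℝ,
    p.pr {τ | T τ o v < a} ≤ π ∧ π < p.pr {τ | T τ o v < a + 1} := by
  classical
  have hex : ∃ j : ℕ, π < p.pr {τ | T τ o v < (j : ℝ) + 1} :=
    ((lim p o v).eventually (lt_mem_nhds h1)).exists
  refine ⟨(Nat.find hex : ℕ), ?_, Nat.find_spec hex⟩
  rcases Nat.eq_zero_or_eq_succ_pred (Nat.find hex) with h | h
  · have e : {τ : Cfg | T τ o v < ((Nat.find hex : ℕ) : ℝ)} = ∅ :=
      Set.eq_empty_of_forall_notMem fun τ hτ => by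
        have h2 : T τ o v < ((Nat.find hex : ℕ) : ℝ) := hτ
        rw [h, Nat.cast_zero] at h2
        exact absurd h2 (not_lt.2 (T_nonneg τ o v))
    rw [e]
    simpa [Par.pr] using h0
  · have h2 := Nat.find_min hex (m := (Nat.find hex).pred) (by omega)
    rw [h, Nat.cast_succ]
    exact not_lt.1 h2

end QUANT

theorem bQUANT : St_QUANT := fun p o _ h0 h1 => by
  choose a ha using fun v => QUANT.one p o v h0 h1
  exact ⟨a, ha⟩

end Pool.Agent.Lib.SL94
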