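import Pool.Agent.Lib.SL94.Blue

/-! Basic kit. -/

namespace Pool.Agent.Lib.SL94

open MeasureTheory ProbabilityTheory Filter Topology Function Finset SimpleGraph Pool.Agent.Lib.FP95
open Pool.Agent.Lib.MP_eba68f_pr hiding Nice
open scoped NNReal ENNReal

@[simp] lemma SW_nil (τ : Cfg) : SW τ [] = 0 := rfl
@[simp] lemma SW_cons (τ : Cfg) (e : Sym2 V) (l : List (Sym2 V)) :
    SW τ (e :: l) = τ e + SW τ l := by simp [SW]
lemma SW_append (τ : Cfg) (l l' : List (Sym2 V)) : SW τ (l ++ l') = SW τ l + SW τ l' := by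
  simp [SW]
lemma SW_reverse (τ : Cfg) (l : List (Sym2 V)) : SW τ l.reverse = SW τ l := by
  simp only [SW, List.map_reverse, List.sum_reverse]
lemma SW_nonneg (τ : Cfg) (l : List (Sym2 V)) : 0 ≤ SW τ l := by
  induction l with
  | nil => simp
  | cons e l ih => rw [SW_cons]; positivity
lemma SW_sublist (τ : Cfg) {l l' : List (Sym2 V)} (h : l.Sublist l') : SW τ l ≤ SW τ l' := by
  induction h with
  | slnil => simp
  | cons a _ ih => simp only [SW_cons]; linarith [(τ a).coe_nonneg]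
  | cons_cons a _ ih => simp only [SW_cons]; linarith
lemma SW_le_SW {τ τ' : Cfg} {l : List (Sym2 V)} (h : ∀ e ∈ l, τ e ≤ τ' e) : SW τ l ≤ SW τ' l := by
  induction l with
  | nil => simp
  | cons a l ih =>
    simp only [SW_cons]
    exact add_le_add (NNReal.coe_le_coe.2 (h a List.mem_cons_self))
      (ih fun e he => h e (List.mem_cons_of_mem _ he))
lemma SW_congr {τ τ' : Cfg} {l : List (Sym2 V)} (h : ∀ e ∈ l, τ e = τ' e) : SW τ l = SW τ' l :=
  le_antisymm (SW_le_SW fun e he => (h e he).le) (SW_le_SW fun e he => (h e he).ge)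
lemma SW_le_mul {τ : Cfg} {l : List (Sym2 V)} {c : ℝ} (h : ∀ e ∈ l, (τ e : ℝ) ≤ c) :
    SW τ l ≤ c * l.length := by
  induction l with
  | nil => simp
  | cons a l ih =>
    have h1 := h a List.mem_cons_self
    have h2 := ih fun e he => h e (List.mem_cons_of_mem _ he)
    simp only [SW_cons, List.length_cons, Nat.cast_add, Nat.cast_one]
    linarith
lemma meas_w (e : Sym2 V) : Measurable fun τ : Cfg => (τ e : ℝ) :=
  (measurable_pi_apply e).coe_nnreal_real
lemma meas_SW (l : List (Sym2 V)) : Measurable fun τ => SW τ l := by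
  induction l with
  | nil => simp
  | cons a l ih =>
    simp only [SW_cons]
    exact (meas_w a).add ih

lemma T_le_SW (τ : Cfg) {u v : V} (q : G.Walk u v) : T τ u v ≤ SW τ q.edges :=
  ciInf_le (f := fun q : G.Walk u v => SW τ q.edges)
    ⟨0, by rintro _ ⟨q, rfl⟩; exact SW_nonneg τ _⟩ q
lemma T_nonneg (τ : Cfg) (u v : V) : 0 ≤ T τ u v := Real.iInf_nonneg fun _ => SW_nonneg τ _
lemma le_T {τ : Cfg} {u v : V} {c : ℝ} (h : ∀ q : G.Walk u v, c ≤ SW τ q.edges) : c ≤ T τ u v :=
  le_ciInf h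
lemma exists_lt {τ : Cfg} {u v : V} {c : ℝ} (h : T τ u v < c) :
    ∃ q : G.Walk u v, q.IsPath ∧ SW τ q.edges < c := by
  obtain ⟨q, hq⟩ := exists_lt_of_ciInf_lt h
  exact ⟨q.bypass, q.bypass_isPath, (SW_sublist τ q.edges_bypass_sublist_edges).trans_lt hq⟩
lemma T_self (τ : Cfg) (u : V) : T τ u u = 0 :=
  le_antisymm (by simpa using T_le_SW τ (Walk.nil : G.Walk u u)) (T_nonneg τ u u)
lemma T_tri (τ : Cfg) (u v w : V) : T τ u w ≤ T τ u v + T τ v w := by
  have : T τ u w - T τ v w ≤ T τ u v := le_T fun q => by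
    have : T τ u w - SW τ q.edges ≤ T τ v w := le_T fun q' => by
      have := T_le_SW τ (q.append q')
      rw [Walk.edges_append, SW_append] at this
      linarith
    linarith
  linarith
lemma T_comm (τ : Cfg) (u v : V) : T τ u v = T τ v u := by
  have key : ∀ u v : V, T τ v u ≤ T τ u v := fun u v => le_T fun q => by
    have := T_le_SW τ q.reverse
    rwa [Walk.edges_reverse, SW_reverse] at this
  exact le_antisymm (key v u) (key u v)
lemma T_mono {τ τ' : Cfg} (h : τ ≤ τ') (u v : V) : T τ u v ≤ T τ' u v :=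
  le_T fun q => (T_le_SW τ q).trans (SW_le_SW fun e _ => h e)
lemma T_adj (τ : Cfg) {u v : V} (h : G.Adj u v) : T τ u v ≤ τ s(u, v) := by
  simpa using T_le_SW τ (Walk.cons h Walk.nil)
lemma T_meas (u v : V) : Measurable fun τ => T τ u v := Measurable.iInf fun _ => meas_SW _
lemma meas_lt (u v : V) (c : ℝ) : MeasurableSet {τ | T τ u v < c} :=
  measurableSet_lt (T_meas u v) measurable_const

lemma card_nb (u : V) : (nb u).card ≤ 4 := by
  unfold nb
  exact card_le_four

lemma mem_D {n : ℕ} {y z : V} :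
    (y, z) ∈ D n ↔ (n : ℝ) < n1 y ∧ n1 y ≤ 2 * n ∧ G.Adj y z := by
  simp only [D, mem_biUnion, mem_filter, mem_image, Prod.mk.injEq, mem_nb]
  constructor
  · rintro ⟨y', ⟨-, h1, h2⟩, z', h3, rfl, rfl⟩
    exact ⟨h1, h2, h3⟩
  · rintro ⟨h1, h2, h3⟩
    exact ⟨y, ⟨mem_ball h2, h1, h2⟩, z, h3, rfl, rfl⟩

lemma card_D {n : ℕ} (hn : 1 ≤ n) : ((D n).card : ℝ) ≤ 100 * (n : ℝ) ^ 2 := by
  classical
  have h1 : (D n).card ≤ (FP95.ball (2 * n)).card * 4 := by
    unfold D
    refine (card_biUnion_le_card_mul _ _ 4 fun y _ => card_image_le.trans (card_nb y)).trans ?_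
    exact Nat.mul_le_mul_right _ (card_filter_le _ _)
  have h2 := card_ball (t := 2 * n) (by positivity)
  have h3 : (1 : ℝ) ≤ n := by exact_mod_cast hn
  have h4 : ((D n).card : ℝ) ≤ (FP95.ball (2 * n)).card * 4 := by exact_mod_cast h1
  nlinarith

/-- sites near a given site are few -/
lemma card_near (S : Finset V) (c : V) {t : ℝ} (ht : 0 ≤ t) (h : ∀ w ∈ S, n1 (w - c) ≤ t) :
    (S.card : ℝ) ≤ (2 * t + 1) ^ 2 := by
  refine le_trans ?_ (card_ball ht)
  exact_mod_cast card_le_card_of_injOn (fun w => w - c) (fun w hw => mem_ball (h w hw))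
    fun _ _ _ _ h => sub_left_injective h

/-- law of one weight -/
lemma pr_eval (p : Par) (e : Sym2 V) {s : Set ℝ≥0} (hs : MeasurableSet s) :
    p.pr {τ | τ e ∈ s} = p.F.real s :=
  congrArg ENNReal.toReal ((measurePreserving_eval_infinitePi (fun _ : Sym2 V => p.F)
    e).measure_preimage hs.nullMeasurableSet)

/-- cylinder sets -/
lemma pr_all (p : Par) (E : Finset (Sym2 V)) (c : ℝ≥0) :
    p.pr {τ | ∀ e ∈ E, τ e ≤ c} = p.F.real (Set.Iic c) ^ E.card := by
  have := Measure.infinitePi_pi (fun _ : Sym2 V => p.F) (s := E) (t := fun _ => Set.Iic c)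
    fun _ _ => measurableSet_Iic
  rw [Finset.prod_const] at this
  unfold Par.pr Par.P Measure.real
  rw [← ENNReal.toReal_pow, ← this]
  rfl

lemma meas_all (E : Finset (Sym2 V)) (c : ℝ≥0) : MeasurableSet {τ : Cfg | ∀ e ∈ E, τ e ≤ c} := by
  have : {τ : Cfg | ∀ e ∈ E, τ e ≤ c} = ⋂ e ∈ E, {τ : Cfg | τ e ≤ c} := by ext; simp
  rw [this]
  exact E.measurableSet_biInter fun e _ =>
    measurableSet_le (measurable_pi_apply e) measurable_const

namespace Sys

variable (p : Sys)

lemma d_pos : 0 < p.d := sub_pos.2 (NNReal.coe_lt_coe.2 p.lo_lt)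
lemma q_pos' : 0 < p.q := p.q_pos
lemma q_le : p.q ≤ 1 := measureReal_le_one
lemma Ev_meas (o x : V) (a : V → ℝ) (y z : V) : MeasurableSet (p.Ev o x a y z) :=
  (measurableSet_le (((T_meas o y).add (meas_w _)).add (T_meas z x))
    ((T_meas o x).add_const _)).inter
    ((measurableSet_lt measurable_const (measurable_pi_apply _)).inter (meas_lt o y _))

/-- almost surely all weights are at least the bottom of the support -/
lemma ae_ge : ∀ᵐ τ ∂p.P, ∀ e, p.r0 ≤ τ e := by
  refine ae_all_iff.2 fun e => ?_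
  have := (measurePreserving_eval_infinitePi (fun _ : Sym2 V => p.F) e).measure_preimage
    (s := Set.Iio p.r0) measurableSet_Iio.nullMeasurableSet
  rw [p.supp] at this
  rw [ae_iff]
  simp only [not_le]
  exact this

lemma ae_pos (e : Sym2 V) : ∀ᵐ τ ∂p.P, 0 < τ e := by
  have := (measurePreserving_eval_infinitePi (fun _ : Sym2 V => p.F) e).measure_preimage
    (s := {0}) (measurableSet_singleton _).nullMeasurableSet
  rw [p.zero] at this
  rw [ae_iff]
  simp only [not_lt, nonpos_iff_eq_zero]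
  exact this

end Sys

end Pool.Agent.Lib.SL94
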