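import Pool.Agent.Lib.SL94.Base

/-! Row CORE: the finite inequality. -/

namespace Pool.Agent.Lib.SL94

open MeasureTheory ProbabilityTheory Filter Topology Function Finset SimpleGraph Pool.Agent.Lib.FP95
open Pool.Agent.Lib.MP_eba68f_pr hiding Nice
open scoped NNReal ENNReal

namespace CORE

lemma cheb (p : Sys) (x : V) {σ c : ℝ} (hT : MemLp (fun τ => T τ 0 x) 2 p.P)
    (hV : variance (fun τ => T τ 0 x) p.P ≤ σ ^ 2) (hc : 0 < c) :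
    p.pr {τ | c ≤ |T τ 0 x - ∫ τ, T τ 0 x ∂p.P|} ≤ σ ^ 2 / c ^ 2 :=
  ENNReal.toReal_le_of_le_ofReal (by positivity) ((meas_ge_le_variance_div_sq hT hc).trans
    (ENNReal.ofReal_le_ofReal (by gcongr)))

end CORE

theorem bCORE (hQ : St_QUANT) (hS : St_SCALE) (hD : St_DET) (hP : St_PLANT) : St_CORE := by
  intro p hL x σ π k0 K m hT hV hσ hπ hπ1 hK hx h3 hm h4 h5 hΔ
  obtain ⟨a, ha⟩ := hQ p.toPar 0 π hπ.le hπ1
  obtain ⟨b, hb⟩ := hQ p.toPar x π hπ.le hπ1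
  obtain ⟨k, hk0, hk1, hk⟩ := hS p x a b π σ k0 K hT hV hσ hK (fun v => (ha v).1)
    (fun v => (hb v).1) h3
  set h := ∫ τ, T τ 0 x ∂p.P with hh
  have c1 := CORE.cheb p x hT hV (c := 2 * σ) (by positivity)
  have c1' : σ ^ 2 / (2 * σ) ^ 2 = 1 / 4 := by field_simp; ring
  rw [c1'] at c1
  have c2 := hL (2 ^ k) Nat.one_le_two_pow
  have c0 : p.pr {τ | ¬∀ e, p.r0 ≤ τ e} = 0 := by
    unfold Par.pr Measure.real
    rw [ae_iff.1 p.ae_ge, ENNReal.toReal_zero]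
  obtain ⟨τ, t0, t1, t2, t3⟩ : ∃ τ : Cfg, (∀ e, p.r0 ≤ τ e) ∧ |T τ 0 x - h| < 2 * σ ∧
      τ ∉ Light p.hi (2 ^ k) ∧
      16 * (p.cnt 0 x a (2 ^ k) τ + p.cnt x 0 b (2 ^ k) τ) < 2 ^ k := by
    by_contra hc
    have hs : (Set.univ : Set Cfg) ⊆ (({τ | ¬∀ e, p.r0 ≤ τ e} ∪ {τ | 2 * σ ≤ |T τ 0 x - h|}) ∪
        Light p.hi (2 ^ k)) ∪
        {τ | 2 ^ k ≤ 16 * (p.cnt 0 x a (2 ^ k) τ + p.cnt x 0 b (2 ^ k) τ)} := fun τ _ => by
      by_contra hn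
      simp only [Set.mem_union, Set.mem_ofPred_eq, not_or, not_not, not_le] at hn
      exact hc ⟨τ, hn.1.1.1, hn.1.1.2, hn.1.2, hn.2⟩
    have u1 := (p.pr_mono hs).trans (p.pr_union_le _ _)
    have u2 := p.pr_union_le ({τ | ¬∀ e, p.r0 ≤ τ e} ∪ {τ | 2 * σ ≤ |T τ 0 x - h|})
      (Light p.hi (2 ^ k))
    have u3 := p.pr_union_le {τ | ¬∀ e, p.r0 ≤ τ e} {τ | 2 * σ ≤ |T τ 0 x - h|}
    rw [p.pr_univ] at u1
    linarith
  have hk2 : 2 ^ k0 ≤ 2 ^ k := Nat.pow_le_pow_right two_pos hk0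
  have hx2 : 2 * ((2 ^ k : ℕ) : ℝ) ≤ n1 x := by
    refine le_trans ?_ hx
    push_cast
    rw [← pow_succ']
    exact pow_le_pow_right₀ one_le_two (by omega)
  obtain ⟨S, y, z, s1, s2, s3⟩ := hD p τ x (2 ^ k) m a b t0 t2 t3.le hx2 hm (h4.trans hk2)
  have s4 : (2 : ℝ) ^ k0 ≤ 8 * S.card := by exact_mod_cast hk2.trans s1
  have hq := p.q_pos'
  have c3 := hP p x S y z m (fun i => a (y i) + 1) (fun i => b (z i) + 1) π
    (h - (p.d * m / 2 - p.d / 2 - 2 - 2 * σ)) hπ s2 (fun i hi => ⟨(s3 i hi).1, (ha _).2, (hb _).2, by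
      linarith [(s3 i hi).2, (abs_lt.1 t1).2]⟩) (by
      have : π ^ 4 * 2 ^ k0 * p.q ^ m ≤ π ^ 4 * (8 * S.card) * p.q ^ m := by gcongr
      linarith)
  refine c3.trans ((p.pr_mono fun τ hτ => ?_).trans (CORE.cheb p x hT hV hΔ))
  have : T τ 0 x ≤ h - (p.d * m / 2 - p.d / 2 - 2 - 2 * σ) := hτ
  show _ ≤ |T τ 0 x - h|
  linarith [neg_le_abs (T τ 0 x - h)]

end Pool.Agent.Lib.SL94
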