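import Pool.Agent.Lib.SL94.Base

/-! Row DET: many good windows along the piece of a nearly optimal path. -/

namespace Pool.Agent.Lib.SL94

open Finset Pool.Agent.Lib.FP95
open Pool.Agent.Lib.MP_eba68f_pr hiding Nice
open scoped NNReal

namespace DET

theorem dist_le {n : ℕ} {u : ℕ → V} (h : ∀ j, j + 1 < n → G.Adj (u j) (u (j + 1))) (i : ℕ) :
    ∀ m : ℕ, i + m < n → n1 (u (i + m) - u i) ≤ m := by
  intro m
  induction m with
  | zero => intro _; simp
  | succ m ih =>
    intro hm
    have h1 := ih (by omega)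
    have h2 := n1_adj (h (i + m) (by omega))
    have h3 := n1_tri (u i) (u (i + m)) (u (i + m + 1))
    have e : u (i + (m + 1)) = u (i + m + 1) := rfl
    rw [e]
    push_cast
    linarith

/-- few windows carry many marked places -/
theorem windows (P : ℕ → Prop) [DecidablePred P] (N k m : ℕ) (hm : 1 ≤ m) (hk : k + m ≤ N + 1) :
    ((range k).filter fun i => m < 4 * ((Ico i (i + m)).filter P).card).card ≤
      4 * ((range N).filter P).card := by
  set B := (range k).filter fun i => m < 4 * ((Ico i (i + m)).filter P).card with hB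
  set L := (range N).filter P with hL
  have h1 : B.card * m ≤ ∑ i ∈ B, 4 * ((Ico i (i + m)).filter P).card := by
    have := card_nsmul_le_sum B (fun i => 4 * ((Ico i (i + m)).filter P).card) m
      fun i hi => (mem_filter.1 hi).2.le
    simpa using this
  have h2 : ∀ i ∈ B, ((Ico i (i + m)).filter P).card =
      ∑ j ∈ L, if i ≤ j ∧ j < i + m then 1 else 0 := by
    intro i hi
    have hi' := mem_range.1 (mem_filter.1 hi).1
    rw [← card_filter]
    congr 1
    ext j
    simp only [hL, mem_filter, mem_Ico, mem_range]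
    constructor
    · rintro ⟨h, hp⟩
      exact ⟨⟨by omega, hp⟩, h⟩
    · rintro ⟨⟨-, hp⟩, h⟩
      exact ⟨h, hp⟩
  have h3 : ∑ i ∈ B, ((Ico i (i + m)).filter P).card ≤ L.card * m := by
    rw [sum_congr rfl h2, sum_comm]
    refine (sum_le_card_nsmul L _ m fun j _ => ?_).trans (by simp)
    rw [← card_filter]
    refine (card_le_card (t := Ico (j + 1 - m) (j + 1)) fun i hi => ?_).trans ?_
    · have := (mem_filter.1 hi).2
      rw [mem_Ico]
      omega
    · rw [Nat.card_Ico]
      omega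
  rw [← mul_sum] at h1
  refine Nat.le_of_mul_le_mul_right (c := m) ?_ hm
  calc B.card * m ≤ 4 * (L.card * m) := h1.trans (Nat.mul_le_mul_left 4 h3)
    _ = 4 * L.card * m := by ring

/-- weight of a window -/
theorem weight (f : ℕ → ℝ≥0) (r hi : ℝ≥0) (hr : ∀ j, r ≤ f j) (s : Finset ℕ) :
    (hi : ℝ) * s.card - ((hi : ℝ) - r) * (s.filter fun j => f j ≤ hi).card ≤
      ∑ j ∈ s, (f j : ℝ) := by
  have h : ∀ j ∈ s, (hi : ℝ) - ((hi : ℝ) - r) * (if f j ≤ hi then 1 else 0) ≤ f j := by
    intro j _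
    split_ifs with h
    · have : (r : ℝ) ≤ f j := hr j
      linarith
    · have : (hi : ℝ) ≤ f j := (not_le.1 h).le
      linarith
  have h2 := sum_le_sum h
  rw [sum_sub_distrib, sum_const, ← mul_sum, sum_boole, nsmul_eq_mul] at h2
  linarith

end DET

open Classical in
theorem bDET (hS : St_SEG) : St_DET := by
  intro p τ x n m a b hr hL hc hx hm hmn
  have hd := p.d_pos
  obtain ⟨u, hu, hT⟩ := hS τ x n (p.d / 2) (by omega) hx (by linarith)
  obtain ⟨adj, inj, nrm⟩ := id hu
  set f : ℕ → ℝ≥0 := fun j => τ s(u j, u (j + 1)) with hf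
  set L := (range (n - 1)).filter fun j => f j ≤ p.hi with hLd
  have hL' : 32 * L.card < n := not_le.1 fun h => hL ⟨u, hu, h⟩
  set B1 := (range (n / 2)).filter fun i => f i ≤ p.hi with hB1
  set B2 := (range (n / 2)).filter fun i => f (i + m - 1) ≤ p.hi with hB2
  set B3 := (range (n / 2)).filter fun i => τ ∈ p.Ev 0 x a (u i) (u (i + 1)) with hB3
  set B4 := (range (n / 2)).filter fun i => τ ∈ p.Ev x 0 b (u (i + m)) (u (i + m - 1)) with hB4
  set B5 := (range (n / 2)).filter
    fun i => m < 4 * ((Ico i (i + m)).filter fun j => f j ≤ p.hi).card with hB5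
  have c1 : B1.card ≤ L.card := card_le_card fun i hi => by
    have h := mem_filter.1 hi
    have := mem_range.1 h.1
    exact mem_filter.2 ⟨mem_range.2 (by omega), h.2⟩
  have c2 : B2.card ≤ L.card := by
    refine card_le_card_of_injOn (fun i => i + m - 1) (fun i hi => ?_) fun i _ j _ h => ?_
    · have h := mem_filter.1 (mem_coe.1 hi)
      have := mem_range.1 h.1
      exact mem_coe.2 (mem_filter.2 ⟨mem_range.2 (by show i + m - 1 < n - 1; omega), h.2⟩)
    · have : i + m - 1 = j + m - 1 := h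
      omega
  have c3 : B3.card ≤ p.cnt 0 x a n τ := by
    refine card_le_card_of_injOn (fun i => (u i, u (i + 1))) (fun i hi => ?_) fun i hi j hj h => ?_
    · have h := mem_filter.1 (mem_coe.1 hi)
      have := mem_range.1 h.1
      have h1 := nrm i (by omega)
      exact mem_coe.2 (mem_filter.2 ⟨mem_D.2 ⟨h1.1, h1.2, adj i (by omega)⟩, h.2⟩)
    · have h1 := mem_range.1 (mem_filter.1 (mem_coe.1 hi)).1
      have h2 := mem_range.1 (mem_filter.1 (mem_coe.1 hj)).1
      exact inj i j (by omega) (by omega) (congrArg Prod.fst h)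
  have last : ∀ i, i + m - 1 + 1 = i + m := fun i => by omega
  have c4 : B4.card ≤ p.cnt x 0 b n τ := by
    refine card_le_card_of_injOn (fun i => (u (i + m), u (i + m - 1))) (fun i hi => ?_)
      fun i hi j hj h => ?_
    · have h := mem_filter.1 (mem_coe.1 hi)
      have := mem_range.1 h.1
      have h1 := nrm (i + m) (by omega)
      have h2 := adj (i + m - 1) (by omega)
      rw [last] at h2
      exact mem_coe.2 (mem_filter.2 ⟨mem_D.2 ⟨h1.1, h1.2, h2.symm⟩, h.2⟩)
    · have h1 := mem_range.1 (mem_filter.1 (mem_coe.1 hi)).1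
      have h2 := mem_range.1 (mem_filter.1 (mem_coe.1 hj)).1
      have := inj (i + m) (j + m) (by omega) (by omega) (congrArg Prod.fst h)
      omega
  have c5 : B5.card ≤ 4 * L.card := DET.windows _ (n - 1) (n / 2) m hm (by omega)
  set S := range (n / 2) \ (B1 ∪ B2 ∪ B3 ∪ B4 ∪ B5) with hSd
  have cS : n / 2 ≤ S.card + (B1.card + B2.card + B3.card + B4.card + B5.card) := by
    have h1 := le_card_sdiff (B1 ∪ B2 ∪ B3 ∪ B4 ∪ B5) (range (n / 2))
    have h2 := card_union_le (B1 ∪ B2 ∪ B3 ∪ B4) B5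
    have h3 := card_union_le (B1 ∪ B2 ∪ B3) B4
    have h4 := card_union_le (B1 ∪ B2) B3
    have h5 := card_union_le B1 B2
    rw [card_range, ← hSd] at h1
    omega
  refine ⟨S, u, fun i => u (i + m), by omega, fun i hi j hj h => ?_, fun i hi => ?_⟩
  · have h1 := mem_range.1 (mem_sdiff.1 hi).1
    have h2 := mem_range.1 (mem_sdiff.1 hj).1
    exact inj i j (by omega) (by omega) h
  · obtain ⟨hr0, hb⟩ := mem_sdiff.1 hi
    have hi' := mem_range.1 hr0
    simp only [mem_union, not_or] at hb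
    obtain ⟨⟨⟨⟨b1, b2⟩, b3⟩, b4⟩, b5⟩ := hb
    have g1 : p.hi < f i := not_le.1 fun h => b1 (mem_filter.2 ⟨hr0, h⟩)
    have g2 : p.hi < f (i + m - 1) := not_le.1 fun h => b2 (mem_filter.2 ⟨hr0, h⟩)
    have g3 : a (u i) ≤ T τ 0 (u i) := not_lt.1 fun h => b3 (mem_filter.2 ⟨hr0, by
      have := hT i (i + 1) (by omega) (by omega)
      rw [Nat.Ico_succ_singleton, sum_singleton] at this
      exact ⟨this, g1, h⟩⟩)
    have g4 : b (u (i + m)) ≤ T τ x (u (i + m)) := not_lt.1 fun h => b4 (mem_filter.2 ⟨hr0, by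
      have h1 := hT (i + m - 1) (i + m - 1 + 1) (by omega) (by omega)
      rw [Nat.Ico_succ_singleton, sum_singleton, last] at h1
      have h2 : p.hi < τ s(u (i + m - 1), u (i + m - 1 + 1)) := g2
      rw [last, Sym2.eq_swap] at h2
      refine ⟨?_, h2, h⟩
      rw [Sym2.eq_swap, T_comm τ x (u (i + m)), T_comm τ (u (i + m - 1)) 0, T_comm τ x 0]
      linarith⟩)
    have g5 : 4 * ((Ico i (i + m)).filter fun j => f j ≤ p.hi).card ≤ m :=
      not_lt.1 fun h => b5 (mem_filter.2 ⟨hr0, h⟩)
    have g5' : 4 * (((Ico i (i + m)).filter fun j => f j ≤ p.hi).card : ℝ) ≤ m := by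
      exact_mod_cast g5
    have w := DET.weight f p.r0 p.hi (fun j => hr _) (Ico i (i + m))
    rw [Nat.card_Ico, Nat.add_sub_cancel_left] at w
    have hn := DET.dist_le adj i m (by omega)
    have h1 := hT i (i + m) (by omega) (by omega)
    refine ⟨hn, ?_⟩
    show a (u i) + b (u (i + m)) + p.lo * n1 (u (i + m) - u i) + p.d * m / 2 ≤ _
    rw [T_comm τ x] at g4
    have h2 := mul_le_mul_of_nonneg_left hn p.lo.coe_nonneg
    have h3 := mul_le_mul_of_nonneg_right p.mid
      (Nat.cast_nonneg (α := ℝ) ((Ico i (i + m)).filter fun j => f j ≤ p.hi).card)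
    have h4 := mul_le_mul_of_nonneg_left g5' hd.le
    have e : (p.hi : ℝ) = p.lo + p.d := by unfold Sys.d; ring
    have e' : (p.hi : ℝ) - p.lo = p.d := rfl
    rw [e'] at h3
    have e2 : (p.hi : ℝ) * m = p.lo * m + p.d * m := by rw [e]; ring
    have h5 : ∑ j ∈ Ico i (i + m), (f j : ℝ) =
        ∑ j ∈ Ico i (i + m), (τ s(u j, u (j + 1)) : ℝ) := rfl
    nlinarith

end Pool.Agent.Lib.SL94
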