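import Pool.Agent.Lib.SL94.Base

/-! Planting of light edge sets: a second moment bound. -/

namespace Pool.Agent.Lib.SL94

open MeasureTheory ProbabilityTheory Filter Topology Function Finset SimpleGraph Pool.Agent.Lib.FP95
open Pool.Agent.Lib.MP_eba68f_pr hiding Nice
open scoped NNReal ENNReal

namespace PLANT

/-- All coordinates of `E` are at most `lo`. -/
def Lt (E : Finset (Sym2 V)) (lo : ℝ≥0) : Set Cfg := {τ | ∀ e ∈ E, τ e ≤ lo}

theorem light_meas (E : Finset (Sym2 V)) (lo : ℝ≥0) : MeasurableSet (Lt E lo) := meas_all E lo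

theorem light_pr (p : Par) (E : Finset (Sym2 V)) (lo : ℝ≥0) :
    p.P.real (Lt E lo) = p.F.real (Set.Iic lo) ^ E.card := pr_all p E lo

theorem light_inter (E E' : Finset (Sym2 V)) (lo : ℝ≥0) :
    Lt E lo ∩ Lt E' lo = Lt (E ∪ E') lo := by
  ext τ
  simp only [Lt, Set.mem_inter_iff, Set.mem_setOf_eq, mem_union]
  exact ⟨fun h e he => he.elim (h.1 e) (h.2 e),
    fun h => ⟨fun e he => h e (Or.inl he), fun e he => h e (Or.inr he)⟩⟩

theorem ind_bd (A : Set Cfg) (x : Cfg) : |A.indicator (fun _ => (1 : ℝ)) x| ≤ 1 := by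
  by_cases h : x ∈ A <;> simp [h]

theorem ind_int (μ : Measure Cfg) {A : Set Cfg} (hA : MeasurableSet A) :
    ∫ x, A.indicator (fun _ => (1 : ℝ)) x ∂μ = μ.real A := by
  rw [integral_indicator_const _ hA, smul_eq_mul, mul_one]

/-- If `B` has conditional probability at least `c` given each light set `E i`, and the sets
`E i` overlap little, then `B` has probability at least `c - δ`. -/
theorem plant (p : Par) (I : Finset ℕ) (hI : I.Nonempty) (E : ℕ → Finset (Sym2 V)) (lo : ℝ≥0)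
    (hq : 0 < p.F.real (Set.Iic lo)) (l : ℕ) (hl : ∀ i ∈ I, (E i).card ≤ l) (D δ : ℝ)
    (hδ : 0 < δ) (hD : ∀ i ∈ I, ((I.filter fun j => ¬ Disjoint (E i) (E j)).card : ℝ) ≤ D)
    (hM : D ≤ δ ^ 2 * I.card * p.F.real (Set.Iic lo) ^ l) (c : ℝ) (B : Set Cfg)
    (mB : MeasurableSet B)
    (hB : ∀ i ∈ I, c * p.F.real (Set.Iic lo) ^ (E i).card ≤ p.P.real (B ∩ Lt (E i) lo)) :
    c ≤ p.P.real B + δ := by
  set P := p.P with hP
  set q := p.F.real (Set.Iic lo) with hqd
  have q1 : q ≤ 1 := measureReal_le_one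
  set M : ℝ := ((I.card : ℕ) : ℝ) with hMd
  have M0 : 0 < M := Nat.cast_pos.2 hI.card_pos
  set φ : ℕ → ℝ := fun i => q ^ (E i).card with hφ
  have φ0 : ∀ i, 0 < φ i := fun i => pow_pos hq _
  have ql : 0 < q ^ l := pow_pos hq _
  have φl : ∀ i ∈ I, q ^ l ≤ φ i := fun i hi => pow_le_pow_of_le_one hq.le q1 (hl i hi)
  set χ : ℕ → Cfg → ℝ := fun i => (Lt (E i) lo).indicator fun _ => (1 : ℝ) with hχ
  have mχ : ∀ i, Measurable (χ i) := fun i => measurable_const.indicator (light_meas _ _)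
  have iχ : ∀ i, Integrable (χ i) P := fun i => HAR.intg _ (mχ i) (ind_bd _)
  have eχ : ∀ i, ∫ τ, χ i τ ∂P = φ i := fun i => by
    rw [hχ, ind_int _ (light_meas _ _), light_pr]
  have mul : ∀ (A C : Set Cfg) τ, A.indicator (fun _ => (1 : ℝ)) τ
      * C.indicator (fun _ => (1 : ℝ)) τ = (A ∩ C).indicator (fun _ => (1 : ℝ)) τ := by
    intro A C x
    by_cases h1 : x ∈ A <;> by_cases h2 : x ∈ C <;> simp [h1, h2]
  have iχχ : ∀ i j, Integrable (fun τ => χ i τ * χ j τ) P := fun i j =>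
    HAR.intg _ ((mχ i).mul (mχ j)) (HAR.bd_mul (ind_bd _) (ind_bd _))
  have eχχ : ∀ i j, ∫ τ, χ i τ * χ j τ ∂P = q ^ (E i ∪ E j).card := fun i j => by
    simp only [hχ, mul, light_inter]
    rw [ind_int _ (light_meas _ _), light_pr]
  set Y : ℕ → Cfg → ℝ := fun i τ => (φ i)⁻¹ * χ i τ - 1 with hY
  have eYY : ∀ i j, (fun τ => Y i τ * Y j τ) = fun τ => (((φ i)⁻¹ * (φ j)⁻¹) * (χ i τ * χ j τ)
      - (φ i)⁻¹ * χ i τ) - ((φ j)⁻¹ * χ j τ - 1) := fun i j => by
    funext τ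
    simp only [hY]
    ring
  have j1 : ∀ i j, Integrable (fun τ => ((φ i)⁻¹ * (φ j)⁻¹) * (χ i τ * χ j τ)
      - (φ i)⁻¹ * χ i τ) P := fun i j => ((iχχ i j).const_mul _).sub ((iχ i).const_mul _)
  have iY : ∀ i, Integrable (fun τ => (φ i)⁻¹ * χ i τ - 1) P := fun i =>
    ((iχ i).const_mul _).sub (integrable_const _)
  have iYY : ∀ i j, Integrable (fun τ => Y i τ * Y j τ) P := fun i j => by
    rw [eYY]
    exact (j1 i j).sub (iY j)
  have cov : ∀ i j, ∫ τ, Y i τ * Y j τ ∂P = (φ i)⁻¹ * (φ j)⁻¹ * q ^ (E i ∪ E j).card - 1 := by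
    intro i j
    rw [eYY, integral_sub (j1 i j) (iY j),
      integral_sub ((iχχ i j).const_mul _) ((iχ i).const_mul _),
      integral_sub ((iχ j).const_mul _) (integrable_const _), integral_const_mul,
      integral_const_mul, integral_const_mul, eχχ, eχ, eχ, integral_const, probReal_univ,
      inv_mul_cancel₀ (φ0 i).ne', inv_mul_cancel₀ (φ0 j).ne']
    simp
  have cov2 : ∀ i ∈ I, ∀ j ∈ I, ∫ τ, Y i τ * Y j τ ∂P
      ≤ if ¬ Disjoint (E i) (E j) then (q ^ l)⁻¹ else 0 := by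
    intro i _ j hj
    rw [cov]
    by_cases h : Disjoint (E i) (E j)
    · rw [if_neg (not_not.2 h), card_union_of_disjoint h, pow_add]
      have : (φ i)⁻¹ * (φ j)⁻¹ * (q ^ (E i).card * q ^ (E j).card) = 1 := by
        have h1 := (φ0 i).ne'
        have h2 := (φ0 j).ne'
        change (φ i)⁻¹ * (φ j)⁻¹ * (φ i * φ j) = 1
        field_simp
      linarith
    · rw [if_pos h]
      have h1 : q ^ (E i ∪ E j).card ≤ φ i :=
        pow_le_pow_of_le_one hq.le q1 (card_le_card subset_union_left)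
      have h2 : (φ i)⁻¹ * (φ j)⁻¹ * q ^ (E i ∪ E j).card ≤ (φ i)⁻¹ * (φ j)⁻¹ * φ i :=
        mul_le_mul_of_nonneg_left h1 (mul_pos (inv_pos.2 (φ0 i)) (inv_pos.2 (φ0 j))).le
      have h3 : (φ i)⁻¹ * (φ j)⁻¹ * φ i = (φ j)⁻¹ := by
        have h1 := (φ0 i).ne'
        field_simp
      have h4 : (φ j)⁻¹ ≤ (q ^ l)⁻¹ := inv_anti₀ ql (φl j hj)
      linarith
  have eZ : (fun τ => (∑ i ∈ I, Y i τ) ^ 2) = fun τ => ∑ i ∈ I, ∑ j ∈ I, Y i τ * Y j τ := by
    funext τ
    rw [sq, sum_mul_sum]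
  have iZ : Integrable (fun τ => (∑ i ∈ I, Y i τ) ^ 2) P := by
    rw [eZ]
    exact integrable_finsetSum _ fun i _ => integrable_finsetSum _ fun j _ => iYY i j
  have sec : ∫ τ, (∑ i ∈ I, Y i τ) ^ 2 ∂P ≤ (δ * M) ^ 2 := by
    rw [eZ, integral_finsetSum _ fun i _ => integrable_finsetSum _ fun j _ => iYY i j]
    have h1 : ∀ i ∈ I, ∫ τ, ∑ j ∈ I, Y i τ * Y j τ ∂P ≤ δ ^ 2 * M := by
      intro i hi
      rw [integral_finsetSum _ fun j _ => iYY i j]
      refine (sum_le_sum fun j hj => cov2 i hi j hj).trans ?_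
      rw [← sum_filter, sum_const, nsmul_eq_mul, ← div_eq_mul_inv, div_le_iff₀ ql]
      exact (hD i hi).trans hM
    refine (sum_le_sum h1).trans (le_of_eq ?_)
    rw [sum_const, nsmul_eq_mul]
    ring
  set β : Cfg → ℝ := B.indicator fun _ => (1 : ℝ) with hβ
  have mβ : Measurable β := measurable_const.indicator mB
  have iβ : Integrable β P := HAR.intg _ mβ (ind_bd _)
  have iβχ : ∀ i, Integrable (fun τ => (φ i)⁻¹ * (β τ * χ i τ)) P := fun i =>
    (HAR.intg _ (mβ.mul (mχ i)) (HAR.bd_mul (ind_bd _) (ind_bd _))).const_mul _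
  have low : ∀ i ∈ I, c ≤ ∫ τ, (φ i)⁻¹ * (β τ * χ i τ) ∂P := by
    intro i hi
    rw [integral_const_mul]
    simp only [hβ, hχ, mul]
    rw [ind_int _ (mB.inter (light_meas _ _)), ← div_eq_inv_mul, le_div_iff₀ (φ0 i)]
    exact hB i hi
  have dM : 0 < δ * M := mul_pos hδ M0
  have pw : ∀ τ, ∑ i ∈ I, (φ i)⁻¹ * (β τ * χ i τ)
      ≤ M * β τ + ((2 * (δ * M))⁻¹ * (∑ i ∈ I, Y i τ) ^ 2 + δ * M / 2) := by
    intro τ
    have e : ∑ i ∈ I, (φ i)⁻¹ * (β τ * χ i τ) = M * β τ + β τ * ∑ i ∈ I, Y i τ := by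
      simp only [hY, sum_sub_distrib, sum_const, nsmul_eq_mul, mul_sub, mul_sum]
      rw [← hMd]
      have : ∀ i ∈ I, (φ i)⁻¹ * (β τ * χ i τ) = β τ * ((φ i)⁻¹ * χ i τ) := fun i _ => by ring
      rw [sum_congr rfl this]
      ring
    rw [e]
    set Z := ∑ i ∈ I, Y i τ
    have h1 : |β τ| ≤ 1 := ind_bd _ _
    have h2 : β τ * Z ≤ |Z| := by
      calc β τ * Z ≤ |β τ * Z| := le_abs_self _
        _ = |β τ| * |Z| := abs_mul _ _
        _ ≤ 1 * |Z| := mul_le_mul_of_nonneg_right h1 (abs_nonneg _)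
        _ = |Z| := one_mul _
    have h3 : |Z| ≤ (2 * (δ * M))⁻¹ * Z ^ 2 + δ * M / 2 := by
      rw [← sq_abs Z, ← div_eq_inv_mul, div_add_div _ _ (by positivity) (by norm_num),
        le_div_iff₀ (by positivity)]
      nlinarith [sq_nonneg (|Z| - δ * M)]
    linarith
  have k1 : Integrable (fun τ => (2 * (δ * M))⁻¹ * (∑ i ∈ I, Y i τ) ^ 2 + δ * M / 2) P :=
    (iZ.const_mul _).add (integrable_const _)
  have k2 : Integrable (fun τ => M * β τ) P := iβ.const_mul _
  have fin := integral_mono (integrable_finsetSum _ fun i _ => iβχ i) (k2.add k1) pw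
  simp only [Pi.add_apply] at fin
  rw [integral_finsetSum _ fun i _ => iβχ i, integral_add k2 k1,
    integral_add (iZ.const_mul _) (integrable_const _), integral_const_mul, integral_const_mul,
    integral_const, probReal_univ, one_smul, hβ, ind_int _ mB] at fin
  have s1 : M * c ≤ ∑ i ∈ I, ∫ τ, (φ i)⁻¹ * (β τ * χ i τ) ∂P := by
    have := card_nsmul_le_sum I _ _ low
    rwa [nsmul_eq_mul] at this
  have s2 : (2 * (δ * M))⁻¹ * ∫ τ, (∑ i ∈ I, Y i τ) ^ 2 ∂P ≤ δ * M / 2 := by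
    rw [← div_eq_inv_mul, div_le_iff₀ (by positivity)]
    nlinarith
  have s3 : M * c ≤ M * (P.real B + δ) := by
    have := s1.trans fin
    nlinarith
  exact le_of_mul_le_mul_left s3 M0

theorem near_edge {u v : V} (w : G.Walk u v) {e : Sym2 V} (he : e ∈ w.edges) {a : V}
    (ha : a ∈ e) : n1 (a - u) ≤ w.length := by
  have hs : a ∈ w.support := by
    induction e using Sym2.ind with
    | h b c =>
      rcases Sym2.mem_iff.1 ha with rfl | rfl
      · exact w.fst_mem_support_of_mem_edges he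
      · exact w.snd_mem_support_of_mem_edges he
  exact (n1_le_length (w.takeUntil a hs)).trans (Nat.cast_le.2 (w.length_takeUntil_le hs))

end PLANT

theorem bPLANT (hT : St_TWO) : St_PLANT := by
  intro p x S y z m A B π Q hπ hinj hS hM
  classical
  choose w hw using fun i => exists_walk (y i) (z i)
  have q0 : 0 < p.q := p.q_pos'
  have m0 : (0 : ℝ) ≤ m := Nat.cast_nonneg m
  have hne : S.Nonempty := by
    rcases S.eq_empty_or_nonempty with rfl | h
    · simp only [card_empty, Nat.cast_zero, mul_zero, zero_mul] at hM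
      have : (0 : ℝ) < 4 * (4 * (m : ℝ) + 1) ^ 2 := by positivity
      linarith
    · exact h
  have len : ∀ i ∈ S, ((w i).length : ℝ) ≤ m := fun i hi => (hw i).trans_le (hS i hi).1
  have mB : MeasurableSet {τ : Cfg | T τ 0 x ≤ Q} := measurableSet_le (T_meas 0 x) measurable_const
  have key := PLANT.plant p.toPar S hne (fun i => (w i).edges.toFinset) p.lo p.q_pos m
    (fun i hi => (List.toFinset_card_le _).trans (by
      rw [Walk.length_edges]
      exact_mod_cast len i hi))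
    ((4 * (m : ℝ) + 1) ^ 2) (π ^ 2 / 2) (by positivity) (fun i hi => ?_) ?_ (π ^ 2) _ mB
    (fun i hi => ?_)
  · change π ^ 2 / 2 ≤ p.P.real {τ : Cfg | T τ 0 x ≤ Q}
    linarith
  · set J := S.filter fun j => ¬ Disjoint (w i).edges.toFinset (w j).edges.toFinset with hJ
    have h1 : (J.image y).card = J.card := card_image_of_injOn fun a ha b hb hab =>
      hinj a (mem_filter.1 ha).1 b (mem_filter.1 hb).1 hab
    have h2 := card_near (J.image y) (y i) (t := 2 * (m : ℝ)) (by positivity) fun v hv => by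
      obtain ⟨j, hj, rfl⟩ := mem_image.1 hv
      obtain ⟨hjS, hd⟩ := mem_filter.1 hj
      obtain ⟨e, e1, e2⟩ := not_disjoint_iff.1 hd
      have a1 := PLANT.near_edge (w i) (List.mem_toFinset.1 e1) (Sym2.out_fst_mem e)
      have a2 := PLANT.near_edge (w j) (List.mem_toFinset.1 e2) (Sym2.out_fst_mem e)
      have a3 := n1_tri (y i) e.out.1 (y j)
      rw [n1_sub_comm (y j) e.out.1] at a3
      linarith [len i hi, len j hjS]
    rw [h1] at h2
    refine h2.trans (le_of_eq ?_)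
    ring
  · change (4 * (m : ℝ) + 1) ^ 2 ≤ (π ^ 2 / 2) ^ 2 * S.card * p.q ^ m
    nlinarith
  · obtain ⟨-, h1, h2, h3⟩ := hS i hi
    refine (hT p.toPar 0 (y i) x (z i) (A i) (B i) π _ p.lo hπ.le h1 h2).trans
      (measureReal_mono fun τ h => ⟨?_, h.2.2⟩)
    have b1 := T_tri τ 0 (y i) x
    have b2 := T_tri τ (y i) (z i) x
    have b3 := (T_le_SW τ (w i)).trans (SW_le_mul (c := p.lo) fun e he =>
      NNReal.coe_le_coe.2 (h.2.2 e (List.mem_toFinset.2 he)))
    rw [Walk.length_edges, hw i] at b3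
    have b4 := T_comm τ (z i) x
    have b5 := h.1
    have b6 := h.2.1
    change T τ 0 x ≤ Q
    linarith

end Pool.Agent.Lib.SL94
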