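import Pool.Agent.Lib.SL94.Base

/-! The rate: choice of the parameters in the finite inequality. -/

namespace Pool.Agent.Lib.SL94

open MeasureTheory ProbabilityTheory Filter Topology Finset Pool.Agent.Lib.FP95
open Pool.Agent.Lib.MP_eba68f_pr hiding Nice
open scoped NNReal ENNReal

namespace RATE

lemma large {P d : ℝ} (hP : 0 < P) (hd : 0 < d) : ∃ t0 : ℕ, ∀ t : ℕ, t0 ≤ t → 1 ≤ t ∧ P < t ∧
    d / 2 + 2 + 2 * (t : ℝ) ^ 2 ≤ d * (t : ℝ) ^ 3 / 4 ∧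
    32 * (4 * (t : ℝ) ^ 3 + 1) ^ 2 * (t : ℝ) ^ 4 ≤ P ^ 4 * 2 ^ (t ^ 3) := by
  have h1 := (tendsto_pow_const_div_const_pow_of_one_lt 10 (one_lt_two (α := ℝ))).eventually
    (gt_mem_nhds (show (0 : ℝ) < P ^ 4 / 800 by positivity))
  have h2 := (tendsto_natCast_atTop_atTop (R := ℝ)).eventually_gt_atTop (max P (2 + 16 / d))
  obtain ⟨t0, h⟩ := eventually_atTop.1 (h1.and (h2.and (eventually_ge_atTop 1)))
  refine ⟨t0, fun t ht => ?_⟩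
  obtain ⟨a, b, c⟩ := h t ht
  rw [max_lt_iff] at b
  have t1 : (1 : ℝ) ≤ t := by exact_mod_cast c
  have t2 : (1 : ℝ) ≤ (t : ℝ) ^ 2 := one_le_pow₀ t1
  have t3 : (1 : ℝ) ≤ (t : ℝ) ^ 3 := one_le_pow₀ t1
  refine ⟨c, b.1, ?_, ?_⟩
  · have e : d * (2 + 16 / d) = 2 * d + 16 := by field_simp
    have e1 : 2 * d + 16 ≤ d * t := e ▸ mul_le_mul_of_nonneg_left b.2.le hd.le
    have e2 := mul_le_mul_of_nonneg_right e1 (sq_nonneg (t : ℝ))
    nlinarith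
  · rw [div_lt_div_iff₀ (by positivity) (by positivity)] at a
    have e1 : (2 : ℝ) ^ t ≤ 2 ^ (t ^ 3) := pow_le_pow_right₀ one_le_two (Nat.le_self_pow (by omega) t)
    calc _ ≤ 32 * (5 * (t : ℝ) ^ 3) ^ 2 * (t : ℝ) ^ 4 := by gcongr; linarith
      _ = (t : ℝ) ^ 10 * 800 := by ring
      _ ≤ P ^ 4 * 2 ^ t := a.le
      _ ≤ _ := by gcongr

lemma scale {M t0 : ℕ} (hM : 1 ≤ M) {X : ℝ} (hX : (4 : ℝ) ^ (2 * M * (t0 + 1) ^ 3) ≤ X) :
    ∃ t : ℕ, t0 ≤ t ∧ (4 : ℝ) ^ (2 * M * (t + 1) ^ 3) ≤ X ∧ X < 4 ^ (2 * M * (t + 2) ^ 3) := by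
  classical
  have h : ∃ s : ℕ, X < 4 ^ (2 * M * s ^ 3) := by
    obtain ⟨s, hs⟩ := pow_unbounded_of_one_lt X (show (1 : ℝ) < 4 by norm_num)
    exact ⟨s, hs.trans_le (pow_le_pow_right₀ (by norm_num)
      ((Nat.le_self_pow (by omega) s).trans (Nat.le_mul_of_pos_left _ (by omega))))⟩
  have h1 : t0 + 1 < Nat.find h := by
    by_contra hc
    exact absurd ((Nat.find_spec h).trans_le (pow_le_pow_right₀ (by norm_num)
      (Nat.mul_le_mul_left _ (Nat.pow_le_pow_left (not_lt.1 hc) 3)))) (not_lt.2 hX)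
  obtain ⟨t, ht⟩ : ∃ t, Nat.find h = t + 2 := ⟨Nat.find h - 2, by omega⟩
  exact ⟨t, by omega, not_lt.1 (Nat.find_min h (by omega)), ht ▸ Nat.find_spec h⟩

lemma logb {M s : ℕ} (hM : 1 ≤ M) (hs : 1 ≤ s) {X : ℝ} (h1 : 1 ≤ X)
    (hX : X < 4 ^ (2 * M * (s + 1) ^ 3)) :
    Real.log X ^ (4 / 3 : ℝ) ≤ (4 * M * s) ^ 4 := by
  have m1 : (1 : ℝ) ≤ M := by exact_mod_cast hM
  have s1 : (1 : ℝ) ≤ s := by exact_mod_cast hs
  have l4 : Real.log 4 ≤ 4 := Real.log_le_self (by norm_num)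
  have e : Real.log X ≤ (4 * M * s) ^ 3 := by
    calc Real.log X ≤ Real.log (4 ^ (2 * M * (s + 1) ^ 3)) := Real.log_le_log (by linarith) hX.le
      _ = 2 * M * (s + 1) ^ 3 * Real.log 4 := by rw [Real.log_pow]; push_cast; ring
      _ ≤ 2 * M ^ 3 * (2 * s) ^ 3 * 4 := by
          gcongr
          · exact le_self_pow₀ m1 (by norm_num)
          · linarith
      _ = _ := by ring
  calc _ ≤ (((4 * M * s) ^ 3 : ℝ)) ^ (4 / 3 : ℝ) :=
        Real.rpow_le_rpow (Real.log_nonneg h1) e (by norm_num)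
    _ = _ := by
        rw [← Real.rpow_natCast, ← Real.rpow_mul (by positivity), ← Real.rpow_natCast]
        norm_num

end RATE

theorem bRATE (hC : St_CORE) : St_RATE := by
  intro p hL
  have hd := p.d_pos
  have hq := p.q_pos'
  obtain ⟨M0, hM0⟩ := exists_pow_lt_of_lt_one hq (show (1 / 2 : ℝ) < 1 by norm_num)
  obtain ⟨M, hM, hMq⟩ : ∃ M : ℕ, 1 ≤ M ∧ (1 / 2 : ℝ) ^ M ≤ p.q :=
    ⟨M0 + 1, by omega, (pow_le_pow_of_le_one (by norm_num) (by norm_num) (by omega)).trans hM0.le⟩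
  have m1 : (1 : ℝ) ≤ M := by exact_mod_cast hM
  obtain ⟨P1, hP1⟩ : ∃ P1 : ℝ, P1 = (p.q * p.d / 2) ^ 2 * (2 * M) / 6553600 := ⟨_, rfl⟩
  have p1 : 0 < P1 := by rw [hP1]; positivity
  obtain ⟨c0, c1, c2, c3⟩ : ∃ c0 : ℝ, 0 < c0 ∧ c0 ≤ 1 ∧ c0 ≤ P1 ^ 2 * p.d ^ 2 / 64 :=
    ⟨min 1 _, lt_min one_pos (by positivity), min_le_left _ _, min_le_right _ _⟩
  obtain ⟨t0, ht0⟩ := RATE.large (P := P1 / c0 ^ 2) (by positivity) hd
  refine ⟨c0 ^ 2 / (4 * M) ^ 4, by positivity, 4 ^ (2 * M * (t0 + 1) ^ 3), fun x hx h2 => ?_⟩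
  obtain ⟨s, s0, s1, s2⟩ := RATE.scale hM hx
  obtain ⟨t, ht⟩ : ∃ t, t = s + 1 := ⟨_, rfl⟩
  obtain ⟨a1, a2, a3, a4⟩ := ht0 t (by omega)
  have t1 : (1 : ℝ) ≤ t := by exact_mod_cast a1
  rw [← ht] at s1
  have b1 := RATE.logb hM a1 ((one_le_pow₀ (by norm_num)).trans s1) (by rw [ht]; exact s2)
  by_contra hn
  have hv : variance (fun τ => T τ 0 x) p.P ≤ (c0 * (t : ℝ) ^ 2) ^ 2 := by
    refine (not_le.1 hn).le.trans ((mul_le_mul_of_nonneg_left b1 (by positivity)).trans_eq ?_)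
    field_simp
  have b2 : c0 * (t : ℝ) ^ 2 ≤ (t : ℝ) ^ 2 := mul_le_of_le_one_left (by positivity) c2
  have b3 : p.d * (t : ℝ) ^ 3 / 4 ≤
      p.d * (t ^ 3 : ℕ) / 2 - p.d / 2 - 2 - 2 * (c0 * (t : ℝ) ^ 2) := by
    push_cast
    linarith
  have b4 : 0 < p.d * (t : ℝ) ^ 3 / 4 := by positivity
  have n1 : 1 ≤ t ^ 3 := Nat.one_le_pow _ _ a1
  have n2 : t ^ 3 ≤ M * t ^ 3 := Nat.le_mul_of_pos_left _ hM
  have key := hC p hL x (c0 * (t : ℝ) ^ 2) (P1 / c0 ^ 2 / t) (2 * M * t ^ 3) (2 * M * t ^ 3) (t ^ 3)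
    h2 hv (by positivity) (by positivity) ((div_lt_one (by positivity)).2 a2)
    (by rw [mul_assoc]; omega)
    (by rw [← two_mul, pow_mul]; norm_num; exact s1)
    (by rw [hP1]; push_cast; apply le_of_eq; field_simp) n1
    (by
      have e : 2 * (M * t ^ 3) = 2 * (M * t ^ 3 - 1) + 2 := by omega
      have := Nat.lt_two_pow_self (n := 2 * (M * t ^ 3 - 1))
      rw [mul_assoc, e, pow_add]
      omega)
    (by
      have e1 : (2 : ℝ) ^ (t ^ 3) ≤ 2 ^ (2 * M * t ^ 3) * p.q ^ (t ^ 3) := by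
        calc (2 : ℝ) ^ (t ^ 3) ≤ 2 ^ (M * t ^ 3) := pow_le_pow_right₀ one_le_two n2
          _ = 2 ^ (2 * M * t ^ 3) * ((1 / 2) ^ M) ^ (t ^ 3) := by
              rw [← pow_mul, mul_assoc, two_mul, pow_add, mul_assoc, ← mul_pow]
              norm_num
          _ ≤ _ := by gcongr
      rw [mul_assoc, div_pow _ (t : ℝ), div_mul_eq_mul_div, le_div_iff₀ (by positivity)]
      push_cast
      exact a4.trans (by gcongr))
    (b4.trans_le b3)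
  have k2 := key.trans (div_le_div_of_nonneg_left (by positivity) (by positivity)
    (pow_le_pow_left₀ b4.le b3 2))
  have k3 : P1 ^ 2 * p.d ^ 2 ≤ 32 * c0 ^ 6 := by
    rw [div_le_div_iff₀ (by positivity) (by positivity)] at k2
    have e : (P1 / c0 ^ 2 / t) ^ 2 * (p.d * (t : ℝ) ^ 3 / 4) ^ 2 =
        P1 ^ 2 * p.d ^ 2 * (t : ℝ) ^ 4 / (16 * c0 ^ 4) := by field_simp; ring
    rw [e, div_le_iff₀ (by positivity)] at k2
    refine le_of_mul_le_mul_right (a := (t : ℝ) ^ 4) (k2.trans_eq (by ring)) (by positivity)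
  have k4 : c0 ^ 6 ≤ c0 := pow_le_of_le_one c1.le c2 (by norm_num)
  have k5 : 0 < P1 ^ 2 * p.d ^ 2 := by positivity
  linarith

end Pool.Agent.Lib.SL94
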