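import Pool.Agent.Lib.SL94.Base

/-! Row SCALE: a scale with few marked edges. -/

namespace Pool.Agent.Lib.SL94

open MeasureTheory ProbabilityTheory Filter Topology Function Finset Pool.Agent.Lib.FP95
open Pool.Agent.Lib.MP_eba68f_pr hiding Nice
open scoped NNReal ENNReal

namespace SCALE

/-- expected number of marked edges -/
noncomputable def EN (p : Sys) (o x : V) (a : V → ℝ) (n : ℕ) : ℝ :=
  ∑ i ∈ D n, p.pr (p.Ev o x a i.1 i.2)

lemma cnt_eq (p : Sys) (o x : V) (a : V → ℝ) (n : ℕ) : (fun τ => (p.cnt o x a n τ : ℝ)) =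
    fun τ => ∑ i ∈ D n, (p.Ev o x a i.1 i.2).indicator (fun _ => (1 : ℝ)) τ := by
  classical
  funext τ
  unfold Sys.cnt
  rw [card_filter]
  push_cast
  refine sum_congr rfl fun i _ => ?_
  by_cases h : τ ∈ p.Ev o x a i.1 i.2 <;> simp [h]

lemma cnt_int (p : Sys) (o x : V) (a : V → ℝ) (n : ℕ) :
    Integrable (fun τ => (p.cnt o x a n τ : ℝ)) p.P ∧
      ∫ τ, (p.cnt o x a n τ : ℝ) ∂p.P = EN p o x a n := by
  have h : ∀ i ∈ D n, Integrable ((p.Ev o x a i.1 i.2).indicator fun _ => (1 : ℝ)) p.P :=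
    fun i _ => (integrable_const (1 : ℝ)).indicator (p.Ev_meas o x a i.1 i.2)
  rw [cnt_eq]
  refine ⟨integrable_finsetSum _ h, ?_⟩
  rw [integral_finsetSum _ h]
  exact sum_congr rfl fun i _ => p.int_ind (p.Ev_meas o x a i.1 i.2)

lemma uniq {k k' : ℕ} {t : ℝ} (h1 : ((2 ^ k : ℕ) : ℝ) < t) (h2 : t ≤ 2 * ((2 ^ k' : ℕ) : ℝ)) :
    k ≤ k' := by
  have h : 2 ^ k < 2 ^ (k' + 1) := by
    rw [pow_succ']
    exact_mod_cast h1.trans_le h2
  exact Nat.lt_succ_iff.1 ((Nat.pow_lt_pow_iff_right (by norm_num)).1 h)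

lemma one (hM : St_MART) (p : Sys) (o x : V) (a : V → ℝ) {π σ : ℝ} (k0 : ℕ) {K : ℕ}
    (h2 : MemLp (fun τ => T τ o x) 2 p.P) (hv : variance (fun τ => T τ o x) p.P ≤ σ ^ 2)
    (hσ : 0 < σ) (hK : 1 ≤ K) (ha : ∀ v, p.pr {τ | T τ o v < a v} ≤ π)
    (hc : 6553600 * π * σ ^ 2 ≤ (p.q * p.d / 2) ^ 2 * K) :
    ∑ k ∈ Ico k0 (k0 + K), EN p o x a (2 ^ k) / 2 ^ k ≤ K / 256 := by
  have c0 : 0 < p.q * p.d / 2 := half_pos (mul_pos p.q_pos' p.d_pos)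
  have π0 : 0 ≤ π := (p.pr_nonneg _).trans (ha 0)
  have K0 : (0 : ℝ) < K := by exact_mod_cast hK
  have key := hM p o x a π σ (p.q * p.d / 2 * K / (256 * σ ^ 2)) (Σ _ : ℕ, V × V)
    ((Ico k0 (k0 + K)).sigma fun k => D (2 ^ k)) (fun i => i.2.1) (fun i => i.2.2)
    (fun i => 1 / 2 ^ i.1) h2 hv (by positivity) ha
    (fun i hi => (mem_D.1 (mem_sigma.1 hi).2).2.2)
    (fun i hi j hj e1 e2 => by
      obtain ⟨a1, a2, -⟩ := mem_D.1 (mem_sigma.1 hi).2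
      obtain ⟨b1, b2, -⟩ := mem_D.1 (mem_sigma.1 hj).2
      rw [← show i.2.1 = j.2.1 from e1] at b1 b2
      exact Sigma.ext (le_antisymm (uniq a1 b2) (uniq b1 a2)) (heq_of_eq (Prod.ext e1 e2)))
    (fun i _ => by positivity)
  rw [sum_sigma, sum_sigma] at key
  have e1 : ∑ k ∈ Ico k0 (k0 + K), ∑ i ∈ D (2 ^ k), 1 / (2 : ℝ) ^ k * p.pr (p.Ev o x a i.1 i.2) =
      ∑ k ∈ Ico k0 (k0 + K), EN p o x a (2 ^ k) / 2 ^ k := sum_congr rfl fun k _ => by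
    rw [← mul_sum, EN, one_div_mul_eq_div]
  have e2 : ∑ k ∈ Ico k0 (k0 + K), ∑ _i ∈ D (2 ^ k), ((1 : ℝ) / 2 ^ k) ^ 2 ≤ (100 : ℝ) * K := by
    refine (sum_le_sum (g := fun _ => (100 : ℝ)) fun k _ => ?_).trans (le_of_eq ?_)
    · have h := card_D (n := 2 ^ k) Nat.one_le_two_pow
      push_cast at h
      rw [sum_const, nsmul_eq_mul, div_pow, one_pow, mul_one_div, div_le_iff₀ (by positivity)]
      exact h
    · rw [sum_const, Nat.card_Ico, Nat.add_sub_cancel_left, nsmul_eq_mul, mul_comm]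
  simp only at key
  rw [e1] at key
  generalize p.q * p.d / 2 = c at *
  have e3 := mul_le_mul_of_nonneg_left e2
    (show 0 ≤ π / (2 * (c * K / (256 * σ ^ 2))) by positivity)
  have e4 : π / (2 * (c * K / (256 * σ ^ 2))) * (100 * K) = 12800 * π * σ ^ 2 / c := by
    field_simp
    ring
  have e5 : 12800 * π * σ ^ 2 / c ≤ c * (K / 512) := by
    rw [div_le_iff₀ c0]
    linarith
  have e6 : c * K / (256 * σ ^ 2) / 2 * σ ^ 2 = c * (K / 512) := by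
    field_simp
    ring
  refine le_of_mul_le_mul_left ?_ c0
  linarith

end SCALE

open SCALE in
theorem bSCALE (hM : St_MART) : St_SCALE := by
  intro p x a b π σ k0 K h2 hv hσ hK ha hb hc
  have e : (fun τ => T τ x 0) = fun τ => T τ 0 x := funext fun τ => T_comm τ x 0
  have s1 := one hM p 0 x a k0 h2 hv hσ hK ha hc
  have s2 := one hM p x 0 b k0 (by rw [e]; exact h2) (by rw [e]; exact hv) hσ hK hb hc
  obtain ⟨k, hk, h⟩ := exists_le_of_sum_le (s := Ico k0 (k0 + K)) (g := fun _ => (1 / 64 : ℝ))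
    (f := fun k => EN p 0 x a (2 ^ k) / 2 ^ k + EN p x 0 b (2 ^ k) / 2 ^ k)
    ⟨k0, mem_Ico.2 ⟨le_rfl, by omega⟩⟩ (by
      rw [sum_add_distrib, sum_const, Nat.card_Ico, Nat.add_sub_cancel_left, nsmul_eq_mul]
      linarith [(Nat.cast_nonneg K : (0 : ℝ) ≤ K)])
  refine ⟨k, (mem_Ico.1 hk).1, (mem_Ico.1 hk).2, ?_⟩
  obtain ⟨i1, j1⟩ := cnt_int p 0 x a (2 ^ k)
  obtain ⟨i2, j2⟩ := cnt_int p x 0 b (2 ^ k)
  have t0 : (0 : ℝ) < 2 ^ k := by positivity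
  have m := mul_meas_ge_le_integral_of_nonneg (μ := p.P)
    (f := fun τ => (p.cnt 0 x a (2 ^ k) τ : ℝ) + p.cnt x 0 b (2 ^ k) τ)
    (ae_of_all _ fun τ => by positivity) (i1.add i2) (2 ^ k / 16)
  rw [integral_add i1 i2, j1, j2] at m
  rw [← add_div, div_le_iff₀ t0] at h
  refine (p.pr_mono (B := {τ | (2 : ℝ) ^ k / 16 ≤
    (p.cnt 0 x a (2 ^ k) τ : ℝ) + p.cnt x 0 b (2 ^ k) τ}) fun τ hτ => ?_).trans ?_
  · have h1 : (2 : ℝ) ^ k ≤ 16 * (p.cnt 0 x a (2 ^ k) τ + p.cnt x 0 b (2 ^ k) τ) := by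
      exact_mod_cast (show 2 ^ k ≤ 16 * (p.cnt 0 x a (2 ^ k) τ + p.cnt x 0 b (2 ^ k) τ) from hτ)
    show (2 : ℝ) ^ k / 16 ≤ _
    linarith
  · refine le_of_mul_le_mul_left (a := 2 ^ k / 16) (m.trans ?_) (by positivity)
    linarith

end Pool.Agent.Lib.SL94
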