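import Pool.Agent.Lib.SL94.Base

/-! The inequality of Harris for two passage times and a cylinder. -/

namespace Pool.Agent.Lib.SL94

open MeasureTheory ProbabilityTheory Filter Topology Function Finset SimpleGraph Pool.Agent.Lib.FP95
open Pool.Agent.Lib.MP_eba68f_pr hiding Nice
open scoped NNReal ENNReal

namespace TWO

theorem nice {A : Set Cfg} (hA : MeasurableSet A) :
    FP95.Nice fun τ => -A.indicator (1 : Cfg → ℝ) τ := by
  refine ⟨(measurable_one.indicator hA).neg, 1, fun τ => ?_⟩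
  by_cases h : τ ∈ A <;> simp [h]

theorem mono {A : Set Cfg} (hA : IsLowerSet A) :
    Monotone fun τ => -A.indicator (1 : Cfg → ℝ) τ := fun τ τ' h => by
  by_cases h' : τ' ∈ A
  · simp [h', hA h h']
  · by_cases h'' : τ ∈ A <;> simp [h', h'']

/-- two decreasing events, the first of finite dependence -/
theorem har (p : Par) (S : Finset (Sym2 V)) {A B : Set Cfg} (mA : MeasurableSet A)
    (mB : MeasurableSet B) (lA : IsLowerSet A) (lB : IsLowerSet B)
    (dA : ∀ τ τ' : Cfg, (∀ e ∈ S, τ e = τ' e) → τ ∈ A → τ' ∈ A) :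
    p.pr A * p.pr B ≤ p.pr (A ∩ B) := by
  have h := HAR.main bRES p S _ _ (nice mA) (nice mB) (mono lA) (mono lB) fun τ τ' h => by
    by_cases h' : τ ∈ A
    · simp [h', dA τ τ' h h']
    · have h'' : τ' ∉ A := fun k => h' (dA τ' τ (fun e he => (h e he).symm) k)
      simp [h', h'']
  have e : (fun τ => -A.indicator (1 : Cfg → ℝ) τ * -B.indicator (1 : Cfg → ℝ) τ) =
      (A ∩ B).indicator 1 := by
    funext τ
    by_cases h1 : τ ∈ A <;> by_cases h2 : τ ∈ B <;> simp [h1, h2]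
  rw [e, integral_neg, integral_neg, integral_indicator_one mA, integral_indicator_one mB,
    integral_indicator_one (mA.inter mB), neg_mul_neg] at h
  exact h

/-- finitely many walks carry most of the event -/
theorem fin (p : Par) (o y : V) {A π : ℝ} (hπ : 0 ≤ π) (h : π < p.pr {τ | T τ o y < A}) :
    ∃ W : Finset (G.Walk o y), π < p.pr {τ | ∃ q ∈ W, SW τ q.edges < A} := by
  have hm : Monotone fun W : Finset (G.Walk o y) => {τ : Cfg | ∃ q ∈ W, SW τ q.edges < A} :=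
    fun _ _ hW _ ⟨q, hq, hlt⟩ => ⟨q, hW hq, hlt⟩
  have hU : {τ | T τ o y < A} =
      ⋃ W : Finset (G.Walk o y), {τ : Cfg | ∃ q ∈ W, SW τ q.edges < A} := by
    ext τ
    rw [Set.mem_iUnion]
    constructor
    · intro hτ
      obtain ⟨q, -, hq⟩ := exists_lt hτ
      exact ⟨{q}, q, mem_singleton_self q, hq⟩
    · rintro ⟨W, q, -, hq⟩
      exact (T_le_SW τ q).trans_lt hq
  have h1 : ENNReal.ofReal π < p.P {τ | T τ o y < A} :=
    (ENNReal.ofReal_lt_iff_lt_toReal hπ (measure_ne_top _ _)).2 h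
  rw [hU, hm.measure_iUnion, lt_iSup_iff] at h1
  obtain ⟨W, hW⟩ := h1
  exact ⟨W, (ENNReal.ofReal_lt_iff_lt_toReal hπ (measure_ne_top _ _)).1 hW⟩

end TWO

theorem bTWO : St_TWO := by
  classical
  intro p o y o' z A B π E lo hπ hA hB
  obtain ⟨W, hW⟩ := TWO.fin p o y hπ hA
  have mW : MeasurableSet {τ : Cfg | ∃ q ∈ W, SW τ q.edges < A} := by
    have : {τ : Cfg | ∃ q ∈ W, SW τ q.edges < A} = ⋃ q ∈ W, {τ : Cfg | SW τ q.edges < A} := by
      ext
      simp
    rw [this]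
    exact W.measurableSet_biUnion fun q _ => measurableSet_lt (meas_SW _) measurable_const
  have lC : IsLowerSet {τ : Cfg | ∀ e ∈ E, τ e ≤ lo} := fun τ τ' h k e he => (h e).trans (k e he)
  have lB : IsLowerSet {τ : Cfg | T τ o' z < B} := fun τ τ' h k => (T_mono h o' z).trans_lt k
  have h1 := TWO.har p E (meas_all E lo) (meas_lt o' z B) lC lB
    fun τ τ' h k e he => (h e he).symm.trans_le (k e he)
  have h2 := TWO.har p (W.biUnion fun q => q.edges.toFinset) mW
    ((meas_all E lo).inter (meas_lt o' z B))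
    (fun τ τ' h ⟨q, hq, k⟩ => ⟨q, hq, (SW_le_SW fun e _ => h e).trans_lt k⟩) (lC.inter lB)
    fun τ τ' h ⟨q, hq, k⟩ => ⟨q, hq, (SW_congr fun e he =>
      (h e (mem_biUnion.2 ⟨q, hq, List.mem_toFinset.2 he⟩)).symm).trans_lt k⟩
  rw [pr_all] at h1
  have h3 : p.pr ({τ : Cfg | ∃ q ∈ W, SW τ q.edges < A} ∩
      ({τ : Cfg | ∀ e ∈ E, τ e ≤ lo} ∩ {τ | T τ o' z < B})) ≤
      p.pr {τ | T τ o y < A ∧ T τ o' z < B ∧ ∀ e ∈ E, τ e ≤ lo} :=
    ENNReal.toReal_mono (measure_ne_top _ _) (measure_mono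
      fun τ ⟨⟨q, _, k⟩, k1, k2⟩ => ⟨(T_le_SW τ q).trans_lt k, k2, k1⟩)
  have h4 : 0 ≤ p.F.real (Set.Iic lo) ^ E.card := pow_nonneg measureReal_nonneg _
  have h5 := mul_le_mul hW.le ((mul_le_mul_of_nonneg_left hB.le h4).trans h1)
    (mul_nonneg h4 hπ) (hπ.trans hW.le)
  calc π ^ 2 * p.F.real (Set.Iic lo) ^ E.card
      = π * (p.F.real (Set.Iic lo) ^ E.card * π) := by ring
    _ ≤ _ := h5.trans (h2.trans h3)

end Pool.Agent.Lib.SL94
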