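import Pool.Agent.Lib.SL94.B_MART
import Pool.Agent.Lib.SL94.B_QUANT
import Pool.Agent.Lib.SL94.B_SCALE
import Pool.Agent.Lib.SL94.B_PEI
import Pool.Agent.Lib.SL94.B_SEG
import Pool.Agent.Lib.SL94.B_DET
import Pool.Agent.Lib.SL94.B_TWO
import Pool.Agent.Lib.SL94.B_PLANT
import Pool.Agent.Lib.SL94.B_CORE
import Pool.Agent.Lib.SL94.B_RATE
import Pool.Agent.Lib.SL94.B_FIN

/-! Assembly. -/

namespace Pool.Agent.Lib.SL94

theorem st_FIN : St_FIN :=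
  bFIN bPEI (bRATE (bCORE bQUANT (bSCALE bMART) (bDET bSEG) (bPLANT bTWO)))

end Pool.Agent.Lib.SL94
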