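import Pool.Agent.Lib.FP95.Base
import Pool.Agent.Lib.FP95.B_HAR
import Pool.Agent.Lib.FP95.B_RES

/-! Definitions and rows for the superlogarithmic variance bound in the plane. -/

namespace Pool.Agent.Lib.SL94

open MeasureTheory ProbabilityTheory Filter Topology Finset Pool.Agent.Lib.FP95
open Pool.Agent.Lib.MP_eba68f_pr hiding Nice
open scoped NNReal ENNReal

/-- total weight of a list of edges -/
noncomputable def SW (τ : Cfg) (l : List (Sym2 V)) : ℝ := (l.map fun e => (τ e : ℝ)).sum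
/-- passage time -/
noncomputable def T (τ : Cfg) (u v : V) : ℝ := ⨅ q : G.Walk u v, SW τ q.edges

/-- a weight law with its levels; the fields `r`, `b` of the parent play no part -/
structure Sys extends Par where
  r0 : ℝ≥0
  lo : ℝ≥0
  hi : ℝ≥0
  lo_lt : lo < hi
  mid : (hi : ℝ) - r0 ≤ 2 * (hi - lo)
  zero : F {0} = 0
  supp : F (Set.Iio r0) = 0
  q_pos : 0 < F.real (Set.Iic lo)

noncomputable def Sys.d (p : Sys) : ℝ := p.hi - p.lo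
noncomputable def Sys.q (p : Sys) : ℝ := p.F.real (Set.Iic p.lo)

/-- the heavy edge from `y` to `z` lies on a nearly optimal walk from `o` to `x`, and `y` is
reached early -/
def Sys.Ev (p : Sys) (o x : V) (a : V → ℝ) (y z : V) : Set Cfg :=
  {τ | T τ o y + τ s(y, z) + T τ z x ≤ T τ o x + p.d / 2 ∧ p.hi < τ s(y, z) ∧ T τ o y < a y}

open Classical in
/-- directed edges whose tail has norm in `(n, 2n]` -/
noncomputable def D (n : ℕ) : Finset (V × V) :=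
  ((ball (2 * n)).filter fun y => (n : ℝ) < n1 y ∧ n1 y ≤ 2 * n).biUnion
    fun y => (nb y).image (Prod.mk y)

/-- a self-avoiding lattice path with `n` sites of norm in `(n, 2n]` -/
def Seg (n : ℕ) (u : ℕ → V) : Prop :=
  (∀ j, j + 1 < n → G.Adj (u j) (u (j + 1))) ∧ (∀ i j, i < n → j < n → u i = u j → i = j) ∧
    ∀ j, j < n → (n : ℝ) < n1 (u j) ∧ n1 (u j) ≤ 2 * n

/-- some such path carries many light edges -/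
def Light (hi : ℝ≥0) (n : ℕ) : Set Cfg :=
  {τ | ∃ u, Seg n u ∧ n ≤ 32 * ((range (n - 1)).filter fun j => τ s(u j, u (j + 1)) ≤ hi).card}

open Classical in
/-- number of marked directed edges at scale `n` -/
noncomputable def Sys.cnt (p : Sys) (o x : V) (a : V → ℝ) (n : ℕ) (τ : Cfg) : ℕ :=
  ((D n).filter fun i => τ ∈ p.Ev o x a i.1 i.2).card

/-- the martingale bound along the growth from `o` -/
def St_MART : Prop := ∀ (p : Sys) (o x : V) (a : V → ℝ) (π σ lam : ℝ) (ι : Type) (I : Finset ι)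
  (y z : ι → V) (w : ι → ℝ), MemLp (fun τ => T τ o x) 2 p.P →
  variance (fun τ => T τ o x) p.P ≤ σ ^ 2 → 0 < lam → (∀ v, p.pr {τ | T τ o v < a v} ≤ π) →
  (∀ i ∈ I, G.Adj (y i) (z i)) → (∀ i ∈ I, ∀ j ∈ I, y i = y j → z i = z j → i = j) →
  (∀ i ∈ I, 0 ≤ w i) →
  p.q * p.d / 2 * ∑ i ∈ I, w i * p.pr (p.Ev o x a (y i) (z i)) ≤
    lam / 2 * σ ^ 2 + π / (2 * lam) * ∑ i ∈ I, w i ^ 2

/-- quantiles -/
def St_QUANT : Prop := ∀ (p : Par) (o : V) (π : ℝ), 0 ≤ π → π < 1 → ∃ a : V → ℝ, ∀ v,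
  p.pr {τ | T τ o v < a v} ≤ π ∧ π < p.pr {τ | T τ o v < a v + 1}

/-- a good scale -/
def St_SCALE : Prop := ∀ (p : Sys) (x : V) (a b : V → ℝ) (π σ : ℝ) (k0 K : ℕ),
  MemLp (fun τ => T τ 0 x) 2 p.P → variance (fun τ => T τ 0 x) p.P ≤ σ ^ 2 → 0 < σ → 1 ≤ K →
  (∀ v, p.pr {τ | T τ 0 v < a v} ≤ π) → (∀ v, p.pr {τ | T τ x v < b v} ≤ π) →
  6553600 * π * σ ^ 2 ≤ (p.q * p.d / 2) ^ 2 * K →
  ∃ k, k0 ≤ k ∧ k < k0 + K ∧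
    p.pr {τ | 2 ^ k ≤ 16 * (p.cnt 0 x a (2 ^ k) τ + p.cnt x 0 b (2 ^ k) τ)} ≤ 1 / 4

/-- Peierls bound -/
def St_PEI : Prop := ∃ p₀ : ℝ, 0 < p₀ ∧ ∀ (p : Par) (hi : ℝ≥0), p.F.real (Set.Iic hi) ≤ p₀ →
  ∀ n, 1 ≤ n → p.pr (Light hi n) ≤ 1 / 8

/-- the piece of a nearly optimal path at scale `n` -/
def St_SEG : Prop := ∀ (τ : Cfg) (x : V) (n : ℕ) (s : ℝ), 1 ≤ n → 2 * (n : ℝ) ≤ n1 x → 0 < s →
  ∃ u, Seg n u ∧ ∀ i i', i ≤ i' → i' < n →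
    T τ 0 (u i) + ∑ j ∈ Ico i i', (τ s(u j, u (j + 1)) : ℝ) + T τ (u i') x ≤ T τ 0 x + s

/-- good windows -/
def St_DET : Prop := ∀ (p : Sys) (τ : Cfg) (x : V) (n m : ℕ) (a b : V → ℝ),
  (∀ e, p.r0 ≤ τ e) → τ ∉ Light p.hi n → 16 * (p.cnt 0 x a n τ + p.cnt x 0 b n τ) ≤ n →
  2 * (n : ℝ) ≤ n1 x → 1 ≤ m → 4 * m ≤ n →
  ∃ (S : Finset ℕ) (y z : ℕ → V), n ≤ 8 * S.card ∧ (∀ i ∈ S, ∀ j ∈ S, y i = y j → i = j) ∧
    ∀ i ∈ S, n1 (z i - y i) ≤ m ∧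
      a (y i) + b (z i) + p.lo * n1 (z i - y i) + p.d * m / 2 ≤ T τ 0 x + p.d / 2

/-- Harris for two passage times and a cylinder -/
def St_TWO : Prop := ∀ (p : Par) (o y o' z : V) (A B π : ℝ) (E : Finset (Sym2 V)) (lo : ℝ≥0),
  0 ≤ π → π < p.pr {τ | T τ o y < A} → π < p.pr {τ | T τ o' z < B} →
  π ^ 2 * p.F.real (Set.Iic lo) ^ E.card ≤
    p.pr {τ | T τ o y < A ∧ T τ o' z < B ∧ ∀ e ∈ E, τ e ≤ lo}

/-- planting a fast piece -/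
def St_PLANT : Prop := ∀ (p : Sys) (x : V) (S : Finset ℕ) (y z : ℕ → V) (m : ℕ) (A B : ℕ → ℝ)
  (π Q : ℝ), 0 < π → (∀ i ∈ S, ∀ j ∈ S, y i = y j → i = j) →
  (∀ i ∈ S, n1 (z i - y i) ≤ m ∧ π < p.pr {τ | T τ 0 (y i) < A i} ∧
    π < p.pr {τ | T τ x (z i) < B i} ∧ A i + B i + p.lo * n1 (z i - y i) ≤ Q) →
  4 * (4 * (m : ℝ) + 1) ^ 2 ≤ π ^ 4 * S.card * p.q ^ m → π ^ 2 / 2 ≤ p.pr {τ | T τ 0 x ≤ Q}

/-- the finite inequality -/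
def St_CORE : Prop := ∀ (p : Sys), (∀ n, 1 ≤ n → p.pr (Light p.hi n) ≤ 1 / 8) →
  ∀ (x : V) (σ π : ℝ) (k0 K m : ℕ), MemLp (fun τ => T τ 0 x) 2 p.P →
  variance (fun τ => T τ 0 x) p.P ≤ σ ^ 2 → 0 < σ → 0 < π → π < 1 → 1 ≤ K →
  (2 : ℝ) ^ (k0 + K) ≤ n1 x → 6553600 * π * σ ^ 2 ≤ (p.q * p.d / 2) ^ 2 * K → 1 ≤ m →
  4 * m ≤ 2 ^ k0 → 32 * (4 * (m : ℝ) + 1) ^ 2 ≤ π ^ 4 * 2 ^ k0 * p.q ^ m →
  0 < p.d * m / 2 - p.d / 2 - 2 - 2 * σ →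
  π ^ 2 / 2 ≤ σ ^ 2 / (p.d * m / 2 - p.d / 2 - 2 - 2 * σ) ^ 2

/-- the rate -/
def St_RATE : Prop := ∀ (p : Sys), (∀ n, 1 ≤ n → p.pr (Light p.hi n) ≤ 1 / 8) →
  ∃ c : ℝ, 0 < c ∧ ∃ N : ℝ, ∀ x : V, N ≤ n1 x → MemLp (fun τ => T τ 0 x) 2 p.P →
    c * Real.log (n1 x) ^ (4 / 3 : ℝ) ≤ variance (fun τ => T τ 0 x) p.P

/-- the final statement -/
def St_FIN : Prop := ∃ p₀ : ℝ≥0∞, 0 < p₀ ∧ ∀ (F : Measure ℝ≥0) [IsProbabilityMeasure F] (r : ℝ≥0),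
  F {0} = 0 → F (Set.Iio r) = 0 → (∀ s, r < s → 0 < F (Set.Iic s)) → F {r} < p₀ →
  ∃ c : ℝ, 0 < c ∧ ∃ N : ℝ, ∀ v : Fin 2 → ℤ, N ≤ |(v 0 : ℝ)| + |(v 1 : ℝ)| →
    ENNReal.ofReal (c * Real.log (|(v 0 : ℝ)| + |(v 1 : ℝ)|) ^ (4 / 3 : ℝ)) ≤
      evariance (fun τ => passage τ 0 v) (Measure.infinitePi fun _ : (lattice 2).edgeSet => F)

end Pool.Agent.Lib.SL94
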